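import Pool.Agent.EntX.Defs
import Pool.Agent.EntX.L_conv_L
import Pool.Agent.HypVol.L_TP_prob
open MeasureTheory Real ProbabilityTheory
open scoped ENNReal BigOperators

namespace HypVol
namespace Sol_KX_ML_mem

theorem norm_toC' {𝕜 : Type} [RCLike 𝕜] (z : 𝕜) : ‖toC z‖ = ‖z‖ := by
  have h : ‖toC z‖ ^ 2 = ‖z‖ ^ 2 := by
    rw [Complex.sq_norm, Complex.normSq_apply, RCLike.norm_sq_eq_def]
    unfold toC
    simp
  exact (pow_left_inj₀ (norm_nonneg _) (norm_nonneg _) (by norm_num)).mp h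

theorem toC_cont' {𝕜 : Type} [RCLike 𝕜] : Continuous (toC : 𝕜 → ℂ) := by
  unfold toC
  exact (Complex.continuous_ofReal.comp RCLike.continuous_re).add
    ((Complex.continuous_ofReal.comp RCLike.continuous_im).mul continuous_const)

theorem ML_memC (𝕜 : Type) [RCLike 𝕜] {d : ℕ} (p : ℝ≥0∞) (hp : 1 ≤ p) (r : ℝ) (hr : 0 < r)
    (α : Fin d → ℝ) (f : (Fin d → ℝ) → 𝕜) (hf : f ∈ ML 𝕜 d r p α) :
    (fun x => toC (f x)) ∈ WF d r p α := by
  haveI := TP_prob d
  obtain ⟨φ, hφ, hφ1, rfl⟩ := hf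
  obtain ⟨hL1, hL2⟩ := conv_L r hr α φ (hφ.integrable hp)
  refine ⟨hL1.of_le (toC_cont'.comp_aestronglyMeasurable hL1.1)
      (Filter.Eventually.of_forall fun x => (norm_toC' _).le), fun x => toC (φ x),
    hφ.of_le (toC_cont'.comp_aestronglyMeasurable hφ.1)
      (Filter.Eventually.of_forall fun x => (norm_toC' (φ x)).le), ?_, hL2⟩
  refine le_trans (le_of_eq ?_) hφ1
  exact eLpNorm_congr_norm_ae (Filter.Eventually.of_forall fun x => norm_toC' (φ x))

end Sol_KX_ML_mem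

alias ML_memC := Sol_KX_ML_mem.ML_memC

end HypVol
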