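import Pool.Agent.EntX.Defs
import Pool.Agent.HypVol.DefsW
import Pool.Agent.HypVol.L_TP_prob
open MeasureTheory Real ProbabilityTheory
open scoped ENNReal BigOperators

namespace HypVol
namespace Sol_KX_carl






theorem half562 (V : Type*) [NormedAddCommGroup V] [NormedSpace ℝ V] [FiniteDimensional ℝ V]
    (D : ℕ) (hD : Module.finrank ℝ V ≤ D) :
    ∃ F : Finset V, F.card ≤ 5 ^ D ∧ ∀ y : V, ‖y‖ ≤ 2 → ∃ z ∈ F, ‖y - z‖ ≤ 1 := by
  classical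
  let P : ℕ → Prop := fun n => ∃ F : Finset V, F.card = n ∧ (∀ c ∈ F, ‖c‖ ≤ 2) ∧
    ∀ c ∈ F, ∀ d ∈ F, c ≠ d → 1 ≤ ‖c - d‖
  have hP : ∀ n, P n → n ≤ 5 ^ D := by
    rintro n ⟨F, rfl, h1, h2⟩
    exact (Besicovitch.card_le_of_separated F h1 h2).trans (Nat.pow_le_pow_right (by norm_num) hD)
  have h0 : P 0 := ⟨∅, by simp⟩
  set n := Nat.findGreatest P (5 ^ D) with hn
  have hPn : P n := Nat.findGreatest_spec (Nat.zero_le _) h0
  obtain ⟨F, hFc, h1, h2⟩ := hPn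
  refine ⟨F, by rw [hFc]; exact Nat.findGreatest_le _, ?_⟩
  intro y hy
  by_contra hcon
  push Not at hcon
  have hyF : y ∉ F := fun h => by
    have := hcon y h
    rw [sub_self, norm_zero] at this
    linarith
  have hP1 : P (n + 1) := by
    refine ⟨insert y F, by rw [Finset.card_insert_of_notMem hyF, hFc], ?_, ?_⟩
    · intro c hc
      rcases Finset.mem_insert.1 hc with rfl | hc
      · exact hy
      · exact h1 c hc
    · intro c hc d hd hcd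
      rcases Finset.mem_insert.1 hc with hc' | hc' <;> rcases Finset.mem_insert.1 hd with hd' | hd'
      · exact absurd (hc'.trans hd'.symm) hcd
      · rw [hc']; exact (hcon d hd').le
      · rw [hd', norm_sub_rev]; exact (hcon c hc').le
      · exact h2 c hc' d hd' hcd
  have := Nat.le_findGreatest (hP _ hP1) hP1
  omega

theorem cover562 (V : Type*) [NormedAddCommGroup V] [NormedSpace ℝ V] [FiniteDimensional ℝ V]
    (D : ℕ) (hD : Module.finrank ℝ V ≤ D) (t : ℕ) (x : V) (ρ : ℝ) (hρ : 0 ≤ ρ) :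
    ∃ F : Finset V, F.card ≤ (5 ^ D) ^ t ∧ ∀ y : V, ‖y - x‖ ≤ ρ → ∃ z ∈ F, ‖y - z‖ ≤ ρ / 2 ^ t := by
  classical
  obtain ⟨F0, hF0, hF1⟩ := half562 V D hD
  induction t with
  | zero => exact ⟨{x}, by simp, fun y hy => ⟨x, by simp, by simpa using hy⟩⟩
  | succ t ih =>
    obtain ⟨F, hF, hF2⟩ := ih
    refine ⟨F.biUnion (fun z => F0.image (fun w => z + (ρ / 2 ^ (t + 1)) • w)), ?_, ?_⟩
    · calc _ ≤ F.card * 5 ^ D := Finset.card_biUnion_le_card_mul _ _ _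
            (fun z _ => Finset.card_image_le.trans hF0)
        _ ≤ (5 ^ D) ^ t * 5 ^ D := Nat.mul_le_mul_right _ hF
        _ = (5 ^ D) ^ (t + 1) := by rw [pow_succ]
    · intro y hy
      obtain ⟨z, hz, hyz⟩ := hF2 y hy
      set s := ρ / 2 ^ (t + 1) with hs
      have hs0 : 0 ≤ s := by positivity
      have h2s : ρ / 2 ^ t = 2 * s := by rw [hs, pow_succ]; field_simp
      rw [h2s] at hyz
      have hw : ∃ w ∈ F0, ‖y - (z + s • w)‖ ≤ s := by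
        rcases hs0.eq_or_lt with h | h
        · obtain ⟨w, hw, _⟩ := hF1 0 (by simp)
          refine ⟨w, hw, ?_⟩
          rw [← h] at hyz ⊢
          simpa using hyz
        · obtain ⟨w, hw, hw2⟩ := hF1 (s⁻¹ • (y - z)) (by
            rw [norm_smul, norm_inv, Real.norm_of_nonneg hs0, inv_mul_le_iff₀ h]
            linarith)
          refine ⟨w, hw, ?_⟩
          have e : y - (z + s • w) = s • (s⁻¹ • (y - z) - w) := by
            rw [smul_sub, smul_smul, mul_inv_cancel₀ h.ne', one_smul]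
            abel
          rw [e, norm_smul, Real.norm_of_nonneg hs0]
          nlinarith
      obtain ⟨w, hw, hw2⟩ := hw
      exact ⟨_, Finset.mem_biUnion.2 ⟨z, hz, Finset.mem_image.2 ⟨w, hw, rfl⟩⟩, hw2⟩

section absX562
variable {X : Type*} [NormedAddCommGroup X] [NormedSpace ℝ X]

theorem step562 (T : Set X) (F : Finset X) (ρ : ℝ) (hρ : 0 ≤ ρ)
    (hF : ∀ f ∈ T, ∃ c ∈ F, ‖f - c‖ ≤ ρ) (V : Submodule ℝ X) [FiniteDimensional ℝ V] (D : ℕ)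
    (hD : Module.finrank ℝ V ≤ D) (η : ℝ) (hη : 0 ≤ η) (hV : ∀ f ∈ T, ∃ v ∈ V, ‖f - v‖ ≤ η) (t : ℕ) :
    ∃ F' : Finset X, F'.card ≤ F.card * (5 ^ D) ^ t ∧
      ∀ f ∈ T, ∃ c ∈ F', ‖f - c‖ ≤ η + 2 * (ρ + η) / 2 ^ t := by
  classical
  have key : ∀ c : X, ∃ G : Finset X, G.card ≤ (5 ^ D) ^ t ∧ ∀ f ∈ T, ‖f - c‖ ≤ ρ →
      ∃ z ∈ G, ‖f - z‖ ≤ η + 2 * (ρ + η) / 2 ^ t := by
    intro c
    by_cases h : ∃ f0 ∈ T, ‖f0 - c‖ ≤ ρ
    · obtain ⟨f0, hf0, h0⟩ := h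
      obtain ⟨v0, hv0, h1⟩ := hV f0 hf0
      obtain ⟨F0, hc, hF0⟩ := cover562 V D hD t ⟨v0, hv0⟩ (2 * (ρ + η)) (by positivity)
      refine ⟨Finset.image (Subtype.val : V → X) F0, Finset.card_image_le.trans hc, ?_⟩
      intro f hf hfc
      obtain ⟨v, hv, h2⟩ := hV f hf
      have h3 : ‖(⟨v, hv⟩ : V) - ⟨v0, hv0⟩‖ ≤ 2 * (ρ + η) := by
        show ‖v - v0‖ ≤ 2 * (ρ + η)
        have e : v - v0 = (v - f) + (f - c) + (c - f0) + (f0 - v0) := by abel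
        rw [e]
        have a1 := norm_add_le ((v - f) + (f - c) + (c - f0)) (f0 - v0)
        have a2 := norm_add_le ((v - f) + (f - c)) (c - f0)
        have a3 := norm_add_le (v - f) (f - c)
        rw [norm_sub_rev] at h2 h0
        linarith
      obtain ⟨z, hz, h4⟩ := hF0 ⟨v, hv⟩ h3
      refine ⟨z, Finset.mem_image.2 ⟨z, hz, rfl⟩, ?_⟩
      have h5 : ‖v - (z : X)‖ ≤ 2 * (ρ + η) / 2 ^ t := h4
      have e : f - (z : X) = (f - v) + (v - z) := by abel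
      rw [e]
      exact (norm_add_le _ _).trans (add_le_add h2 h5)
    · exact ⟨∅, by simp, fun f hf hfc => (h ⟨f, hf, hfc⟩).elim⟩
  choose G hG1 hG2 using key
  refine ⟨F.biUnion G, Finset.card_biUnion_le_card_mul _ _ _ (fun c _ => hG1 c), ?_⟩
  intro f hf
  obtain ⟨c, hc, h1⟩ := hF f hf
  obtain ⟨z, hz, h2⟩ := hG2 c f hf h1
  exact ⟨z, Finset.mem_biUnion.2 ⟨c, hc, hz⟩, h2⟩


theorem main562 (T : Set X) (B : ℝ) (hB : ∀ f ∈ T, ‖f‖ ≤ B) (R : ℕ → ℝ) (q C : ℝ) (hq : 1 ≤ q)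
    (hC : 0 < C) (hR : ∀ k, 2 ≤ k → 0 < R k)
    (hRq : ∀ a b, 2 ≤ a → a ≤ b → b ≤ 2 * a → R a ≤ q * R b)
    (hw : ∀ m, 2 ≤ m → ∃ V : Submodule ℝ X, FiniteDimensional ℝ V ∧ Module.finrank ℝ V ≤ 2 * m ∧
      ∀ f ∈ T, ∃ v ∈ V, ‖f - v‖ ≤ C * R m) :
    ∃ (A : ℝ) (K : ℕ), 0 < A ∧ ∀ m, 2 ≤ m → ∃ F : Finset X, F.card ≤ 2 ^ (K * m) ∧
      ∀ f ∈ T, ∃ c ∈ F, ‖f - c‖ ≤ A * R m := by
  set A : ℝ := max (2 * C) (B / R 2) with hA
  have hA0 : 0 < A := lt_max_of_lt_left (by positivity)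
  have hA1 : 2 * C ≤ A := le_max_left _ _
  have hR2 := hR 2 le_rfl
  have hA2 : B ≤ A * R 2 := by
    have : B / R 2 ≤ A := le_max_right _ _
    rwa [div_le_iff₀ hR2] at this
  obtain ⟨t, ht⟩ := pow_unbounded_of_one_lt (4 * (q + 1)) (by norm_num : (1 : ℝ) < 2)
  set K : ℕ := 12 * t + 1 with hK
  have claim : ∀ j : ℕ, ∃ F : Finset X, F.card ≤ 2 ^ (K * 2 ^ (j + 1)) ∧
      ∀ f ∈ T, ∃ c ∈ F, ‖f - c‖ ≤ A * R (2 ^ (j + 1)) := by
    intro j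
    induction j with
    | zero =>
      refine ⟨{0}, ?_, ?_⟩
      · rw [Finset.card_singleton]; exact Nat.one_le_two_pow
      · intro f hf
        refine ⟨0, by simp, ?_⟩
        rw [sub_zero]
        simpa using (hB f hf).trans hA2
    | succ j ih =>
      obtain ⟨F, hF1, hF2⟩ := ih
      have e1 : 2 ≤ 2 ^ (j + 1) := by
        calc 2 = 2 ^ 1 := rfl
          _ ≤ 2 ^ (j + 1) := Nat.pow_le_pow_right (by norm_num) (by omega)
      have e2 : 2 ≤ 2 ^ (j + 1 + 1) := by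
        calc 2 = 2 ^ 1 := rfl
          _ ≤ 2 ^ (j + 1 + 1) := Nat.pow_le_pow_right (by norm_num) (by omega)
      have e3 : (2 : ℕ) ^ (j + 1 + 1) = 2 * 2 ^ (j + 1) := by rw [pow_succ]; ring
      have r1 := hR _ e1
      have r2 := hR _ e2
      have r3 := hRq (2 ^ (j + 1)) (2 ^ (j + 1 + 1)) e1 (by omega) (by omega)
      obtain ⟨V, hV1, hV2, hV3⟩ := hw _ e2
      have := hV1
      obtain ⟨F', hF3, hF4⟩ := step562 T F (A * R (2 ^ (j + 1))) (by positivity) hF2 V _ hV2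
        (C * R (2 ^ (j + 1 + 1))) (by positivity) hV3 t
      refine ⟨F', ?_, ?_⟩
      · calc F'.card ≤ F.card * (5 ^ (2 * 2 ^ (j + 1 + 1))) ^ t := hF3
          _ ≤ 2 ^ (K * 2 ^ (j + 1)) * ((2 ^ 3) ^ (2 * 2 ^ (j + 1 + 1))) ^ t := by
              gcongr
              norm_num
          _ = 2 ^ (K * 2 ^ (j + 1) + 3 * (2 * 2 ^ (j + 1 + 1)) * t) := by
              rw [← pow_mul, ← pow_mul, ← pow_add]
              congr 1
              ring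
          _ ≤ 2 ^ (K * 2 ^ (j + 1 + 1)) := by
              apply Nat.pow_le_pow_right (by norm_num)
              rw [e3, hK]
              nlinarith [Nat.zero_le (2 ^ (j + 1))]
      · intro f hf
        obtain ⟨c, hc, h1⟩ := hF4 f hf
        refine ⟨c, hc, h1.trans ?_⟩
        have h2t : (0 : ℝ) < 2 ^ t := by positivity
        have h3 : 2 * (A * R (2 ^ (j + 1)) + C * R (2 ^ (j + 1 + 1))) / 2 ^ t ≤
            A / 2 * R (2 ^ (j + 1 + 1)) := by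
          rw [div_le_iff₀ h2t]
          have h4 : A * R (2 ^ (j + 1)) ≤ A * (q * R (2 ^ (j + 1 + 1))) := by gcongr
          have h5 : C * R (2 ^ (j + 1 + 1)) ≤ A * R (2 ^ (j + 1 + 1)) := by
            gcongr
            linarith
          have h6 : A / 2 * R (2 ^ (j + 1 + 1)) * (4 * (q + 1)) ≤
              A / 2 * R (2 ^ (j + 1 + 1)) * 2 ^ t := by
            gcongr
          nlinarith
        have h7 : C * R (2 ^ (j + 1 + 1)) ≤ A / 2 * R (2 ^ (j + 1 + 1)) := by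
          gcongr
          linarith
        linarith
  refine ⟨A * q, K, by positivity, ?_⟩
  intro m hm
  obtain ⟨j, hj⟩ : ∃ j, Nat.log 2 m = j + 1 :=
    ⟨Nat.log 2 m - 1, by have := Nat.log_pos (b := 2) (by norm_num) hm; omega⟩
  have hJ2 : 2 ^ (j + 1) ≤ m := by rw [← hj]; exact Nat.pow_log_le_self 2 (by omega)
  have hJ3 : m < 2 ^ (j + 1 + 1) := by
    rw [← hj]; exact Nat.lt_pow_succ_log_self (by norm_num) m
  obtain ⟨F, hF1, hF2⟩ := claim j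
  refine ⟨F, hF1.trans (Nat.pow_le_pow_right (by norm_num) (Nat.mul_le_mul_left _ hJ2)), ?_⟩
  intro f hf
  obtain ⟨c, hc, h1⟩ := hF2 f hf
  refine ⟨c, hc, h1.trans ?_⟩
  have e1 : 2 ≤ 2 ^ (j + 1) := by
    calc 2 = 2 ^ 1 := rfl
      _ ≤ 2 ^ (j + 1) := Nat.pow_le_pow_right (by norm_num) (by omega)
  have e3 : (2 : ℕ) ^ (j + 1 + 1) = 2 * 2 ^ (j + 1) := by rw [pow_succ]; ring
  have h2 := hRq (2 ^ (j + 1)) m e1 hJ2 (by omega)
  rw [mul_assoc]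
  exact mul_le_mul_of_nonneg_left h2 hA0.le


end absX562

theorem Rk_pos562 (d : ℕ) (r : ℝ) (k : ℕ) (hk : 2 ≤ k) : 0 < Rk d r k := by
  have h1 : (1 : ℝ) < k := by exact_mod_cast (by omega : 1 < k)
  have h2 := Real.log_pos h1
  unfold Rk
  positivity

theorem pexp562 (d : ℕ) (hd : 1 ≤ d) (r : ℝ) (hr : 0 < r) : 0 ≤ ((d : ℝ) - 1) * r + 1 / 2 := by
  have : (1 : ℝ) ≤ d := by exact_mod_cast hd
  have : 0 ≤ ((d : ℝ) - 1) * r := mul_nonneg (by linarith) hr.le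
  linarith

theorem Rk_ratio562 (d : ℕ) (hd : 1 ≤ d) (r : ℝ) (hr : 0 < r) (a b : ℕ) (ha : 2 ≤ a) (hab : a ≤ b)
    (hb : b ≤ 2 * a) : Rk d r a ≤ 2 ^ r * Rk d r b := by
  have ha0 : (0 : ℝ) < a := by exact_mod_cast (by omega : 0 < a)
  have hb0 : (0 : ℝ) < b := by exact_mod_cast (by omega : 0 < b)
  have hab' : (a : ℝ) ≤ b := by exact_mod_cast hab
  have hb' : (b : ℝ) ≤ 2 * a := by exact_mod_cast hb
  have h1 : (b : ℝ) ^ r ≤ 2 ^ r * (a : ℝ) ^ r := by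
    rw [← Real.mul_rpow (by norm_num) ha0.le]
    exact Real.rpow_le_rpow hb0.le hb' hr.le
  have h2 : (a : ℝ) ^ (-r) ≤ 2 ^ r * (b : ℝ) ^ (-r) := by
    rw [Real.rpow_neg ha0.le, Real.rpow_neg hb0.le]
    have ha1 : 0 < (a : ℝ) ^ r := Real.rpow_pos_of_pos ha0 r
    have hb1 : 0 < (b : ℝ) ^ r := Real.rpow_pos_of_pos hb0 r
    rw [inv_le_iff_one_le_mul₀ ha1, ← div_eq_mul_inv, div_mul_eq_mul_div, one_le_div hb1]
    exact h1
  have h3 : (Real.log a) ^ (((d : ℝ) - 1) * r + 1 / 2) ≤ (Real.log b) ^ (((d : ℝ) - 1) * r + 1 / 2) := by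
    apply Real.rpow_le_rpow
    · exact Real.log_nonneg (by exact_mod_cast (by omega : 1 ≤ a))
    · exact Real.log_le_log ha0 hab'
    · exact pexp562 d hd r hr
  unfold Rk
  calc (a : ℝ) ^ (-r) * (Real.log a) ^ (((d : ℝ) - 1) * r + 1 / 2)
      ≤ (2 ^ r * (b : ℝ) ^ (-r)) * (Real.log b) ^ (((d : ℝ) - 1) * r + 1 / 2) := by
        apply mul_le_mul h2 h3 (Real.rpow_nonneg (Real.log_nonneg (by exact_mod_cast (by omega : 1 ≤ a))) _)
          (by positivity)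
    _ = _ := by ring

theorem Rk_mul562 (d : ℕ) (hd : 1 ≤ d) (r : ℝ) (hr : 0 < r) (L m : ℕ) (hL : 1 ≤ L) (hm : 2 ≤ m) :
    Rk d r m ≤ (L : ℝ) ^ r * Rk d r (L * m) := by
  have hL0 : (0 : ℝ) < L := by exact_mod_cast (by omega : 0 < L)
  have hm0 : (0 : ℝ) < m := by exact_mod_cast (by omega : 0 < m)
  have hlog : 0 ≤ Real.log m := Real.log_nonneg (by exact_mod_cast (by omega : 1 ≤ m))
  have hle : (m : ℝ) ≤ ((L * m : ℕ) : ℝ) := by
    exact_mod_cast Nat.le_mul_of_pos_left m (by omega)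
  have h3 : (Real.log m) ^ (((d : ℝ) - 1) * r + 1 / 2) ≤
      (Real.log ((L * m : ℕ) : ℝ)) ^ (((d : ℝ) - 1) * r + 1 / 2) :=
    Real.rpow_le_rpow hlog (Real.log_le_log hm0 hle) (pexp562 d hd r hr)
  have h4 : (L : ℝ) ^ r * ((L * m : ℕ) : ℝ) ^ (-r) = (m : ℝ) ^ (-r) := by
    push_cast
    rw [Real.mul_rpow hL0.le hm0.le, ← mul_assoc, ← Real.rpow_add hL0, add_neg_cancel,
      Real.rpow_zero, one_mul]
  unfold Rk
  rw [← mul_assoc, h4]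
  exact mul_le_mul_of_nonneg_left h3 (Real.rpow_nonneg hm0.le _)

theorem exs562 (r c M : ℝ) (hc : 0 < c) (hM : 0 < M) (K : ℕ) :
    ∃ s : ℕ, M * ((K + 6 * s + 1 : ℕ) : ℝ) ^ r < c * 2 ^ s := by
  set n0 := ⌈r⌉₊ with hn0
  have hr : r ≤ n0 := Nat.le_ceil r
  have h1 := tendsto_pow_const_div_const_pow_of_one_lt n0 (by norm_num : (1 : ℝ) < 2)
  have hpos : 0 < c / (M * ((K : ℝ) + 7) ^ n0) := by positivity
  have h2 := (h1.eventually (gt_mem_nhds hpos)).and (Filter.eventually_ge_atTop 1)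
  obtain ⟨s, hs, hs1⟩ := h2.exists
  refine ⟨s, ?_⟩
  have h2s : (0 : ℝ) < 2 ^ s := by positivity
  rw [div_lt_div_iff₀ h2s (by positivity)] at hs
  have hs1' : (1 : ℝ) ≤ s := by exact_mod_cast hs1
  have h3 : ((K + 6 * s + 1 : ℕ) : ℝ) ^ r ≤ (((K : ℝ) + 7) * s) ^ n0 := by
    calc ((K + 6 * s + 1 : ℕ) : ℝ) ^ r ≤ ((K + 6 * s + 1 : ℕ) : ℝ) ^ (n0 : ℝ) := by
          apply Real.rpow_le_rpow_of_exponent_le _ hr
          push_cast
          have : (0 : ℝ) ≤ K := Nat.cast_nonneg _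
          linarith
      _ = ((K + 6 * s + 1 : ℕ) : ℝ) ^ n0 := Real.rpow_natCast _ _
      _ ≤ (((K : ℝ) + 7) * s) ^ n0 := by
          apply pow_le_pow_left₀ (Nat.cast_nonneg _)
          push_cast
          have : (0 : ℝ) ≤ K := Nat.cast_nonneg _
          nlinarith
  calc M * ((K + 6 * s + 1 : ℕ) : ℝ) ^ r ≤ M * (((K : ℝ) + 7) * s) ^ n0 := by gcongr
    _ = s ^ n0 * (M * ((K : ℝ) + 7) ^ n0) := by rw [mul_pow]; ring
    _ < c * 2 ^ s := hs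

theorem wid562 {𝕜 : Type} [RCLike 𝕜] {d : ℕ} (Θ : Set ((Fin d → ℝ) → 𝕜))
    (hm : ∀ f ∈ Θ, MemLp f ⊤ (TP d)) (m : ℕ) (e : ℝ) (he : 0 ≤ e)
    (h : kolW2 m Θ < ENNReal.ofReal e) :
    ∃ V : Submodule ℝ (Lp 𝕜 ⊤ (TP d)), FiniteDimensional ℝ V ∧ Module.finrank ℝ V ≤ 2 * m ∧
      ∀ x ∈ {x : Lp 𝕜 ⊤ (TP d) | ∃ f, ∃ hf : f ∈ Θ, x = (hm f hf).toLp f},
        ∃ v ∈ V, ‖x - v‖ ≤ e := by
  unfold kolW2 at h
  simp only [iInf_lt_iff] at h
  obtain ⟨U, ⟨hU1, hU2, hU3⟩, h⟩ := h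
  let ι : U →ₗ[𝕜] Lp 𝕜 ⊤ (TP d) :=
    { toFun := fun u => (hU3 u u.2).toLp u
      map_add' := fun u v => MemLp.toLp_add _ _
      map_smul' := fun c u => MemLp.toLp_const_smul c _ }
  have := hU1
  have hfin : Module.Finite 𝕜 (LinearMap.range ι) := inferInstance
  have hfr : Module.finrank 𝕜 (LinearMap.range ι) ≤ m := (LinearMap.finrank_range_le ι).trans hU2
  let eqv : ((LinearMap.range ι).restrictScalars ℝ) ≃ₗ[ℝ] (LinearMap.range ι) :=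
    { toFun := fun x => ⟨x.1, x.2⟩
      invFun := fun x => ⟨x.1, x.2⟩
      map_add' := fun _ _ => rfl
      map_smul' := fun _ _ => rfl
      left_inv := fun _ => rfl
      right_inv := fun _ => rfl }
  have hfinR : Module.Finite ℝ (LinearMap.range ι) := Module.Finite.trans 𝕜 _
  refine ⟨(LinearMap.range ι).restrictScalars ℝ, Module.Finite.equiv eqv.symm, ?_, ?_⟩
  · rw [eqv.finrank_eq, ← Module.finrank_mul_finrank ℝ 𝕜 (LinearMap.range ι)]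
    exact Nat.mul_le_mul (RCLike.finrank_le_two 𝕜) hfr
  · rintro x ⟨f, hf, rfl⟩
    have h1 := (le_iSup₂ (f := fun (f : (Fin d → ℝ) → 𝕜) (_ : f ∈ Θ) =>
      ⨅ u ∈ U, eLpNorm (fun x => f x - u x) ⊤ (TP d)) f hf).trans_lt h
    simp only [iInf_lt_iff] at h1
    obtain ⟨u, hu, h1⟩ := h1
    refine ⟨ι ⟨u, hu⟩, ⟨⟨u, hu⟩, rfl⟩, ?_⟩
    show ‖(hm f hf).toLp f - (hU3 u hu).toLp u‖ ≤ e
    rw [← MemLp.toLp_sub, Lp.norm_toLp]
    apply ENNReal.toReal_le_of_le_ofReal he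
    exact h1.le

theorem cov562 {𝕜 : Type} [RCLike 𝕜] {d : ℕ} (Θ : Set ((Fin d → ℝ) → 𝕜))
    (hm : ∀ f ∈ Θ, MemLp f ⊤ (TP d)) (k : ℕ) (ε : ℝ) (hε : 0 < ε) (F : Finset (Lp 𝕜 ⊤ (TP d)))
    (hF : F.card ≤ 2 ^ k)
    (hF2 : ∀ x ∈ {x : Lp 𝕜 ⊤ (TP d) | ∃ f, ∃ hf : f ∈ Θ, x = (hm f hf).toLp f},
        ∃ v ∈ F, ‖x - v‖ ≤ ε) : entNum ⊤ k Θ ≤ ENNReal.ofReal ε := by
  unfold entNum
  refine iInf₂_le _ ⟨by positivity, ?_⟩
  refine ⟨fun i => ((F.toList.getD i 0 : Lp 𝕜 ⊤ (TP d)) : (Fin d → ℝ) → 𝕜), fun j => Lp.memLp _, ?_⟩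
  intro f hf
  obtain ⟨v, hv, h1⟩ := hF2 _ ⟨f, hf, rfl⟩
  rw [← Finset.mem_toList] at hv
  obtain ⟨i, hi, hiv⟩ := List.getElem_of_mem hv
  have hi2 : i < 2 ^ k := by
    rw [Finset.length_toList] at hi
    omega
  refine ⟨⟨i, hi2⟩, ?_⟩
  have e1 : (F.toList.getD i 0 : Lp 𝕜 ⊤ (TP d)) = v := by
    rw [List.getD_eq_getElem _ _ hi, hiv]
  simp only [e1]
  have h2 : eLpNorm (fun x => f x - v x) ⊤ (TP d) = ENNReal.ofReal ‖(hm f hf).toLp f - v‖ := by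
    rw [ofReal_norm, Lp.enorm_def]
    apply eLpNorm_congr_ae
    filter_upwards [Lp.coeFn_sub ((hm f hf).toLp f) v, (hm f hf).coeFn_toLp] with x h3 h4
    rw [h3, Pi.sub_apply, h4]
  rw [h2]
  exact ENNReal.ofReal_le_ofReal h1

theorem carl (𝕜 : Type) [RCLike 𝕜] (d : ℕ) (hd : 1 ≤ d) (r : ℝ) (hr : 0 < r) (Θ : Set ((Fin d → ℝ) → 𝕜))
    (B : ℝ) (hB : ∀ f ∈ Θ, MemLp f ⊤ (TP d) ∧ eLpNorm f ⊤ (TP d) ≤ ENNReal.ofReal B)
    (hlow : ∃ c : ℝ, 0 < c ∧ ∀ k : ℕ, 2 ≤ k → ENNReal.ofReal (c * Rk d r k) ≤ entNum ⊤ k Θ)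
    (hup : ∃ C : ℝ, 0 < C ∧ ∀ m : ℕ, 2 ≤ m → kolW2 m Θ ≤ ENNReal.ofReal (C * Rk d r m)) :
    ∃ c : ℝ, 0 < c ∧ ∀ m : ℕ, 2 ≤ m → ENNReal.ofReal (c * Rk d r m) ≤ kolW2 m Θ := by
  have hprob := TP_prob d
  obtain ⟨c, hc, hlow⟩ := hlow
  obtain ⟨C, hC, hup⟩ := hup
  have hm : ∀ f ∈ Θ, MemLp f ⊤ (TP d) := fun f hf => (hB f hf).1
  have hTB : ∀ x ∈ {x : Lp 𝕜 ⊤ (TP d) | ∃ f, ∃ hf : f ∈ Θ, x = (hm f hf).toLp f},
      ‖x‖ ≤ max B 0 := by
    rintro x ⟨f, hf, rfl⟩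
    rw [Lp.norm_toLp]
    apply ENNReal.toReal_le_of_le_ofReal (le_max_right _ _)
    exact (hB f hf).2.trans (ENNReal.ofReal_le_ofReal (le_max_left _ _))
  obtain ⟨A, K, hA, hmain⟩ := main562 _ (max B 0) hTB (Rk d r) (2 ^ r) (2 * C)
    (Real.one_le_rpow (by norm_num) hr.le) (by positivity) (Rk_pos562 d r)
    (Rk_ratio562 d hd r hr) (fun m hm2 => by
      have hR := Rk_pos562 d r m hm2
      apply wid562 Θ hm m (2 * C * Rk d r m) (by positivity)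
      refine (hup m hm2).trans_lt ?_
      rw [ENNReal.ofReal_lt_ofReal_iff (by positivity)]
      nlinarith [mul_pos hC hR])
  obtain ⟨s, hs⟩ := exs562 r c (2 * A + 3) hc (by positivity) K
  refine ⟨(1 / 2) ^ s, by positivity, ?_⟩
  intro m hm2
  by_contra hlt
  push Not at hlt
  have hR := Rk_pos562 d r m hm2
  obtain ⟨V, hV1, hV2, hV3⟩ := wid562 Θ hm m ((1 / 2) ^ s * Rk d r m) (by positivity) hlt
  obtain ⟨F, hF1, hF2⟩ := hmain m hm2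
  have := hV1
  obtain ⟨F', hF3, hF4⟩ := step562 _ F (A * Rk d r m) (by positivity) hF2 V (2 * m) hV2 _
    (by positivity) hV3 s
  set L : ℕ := K + 6 * s + 1 with hL
  have hcard : F'.card ≤ 2 ^ (L * m) := by
    calc F'.card ≤ F.card * (5 ^ (2 * m)) ^ s := hF3
      _ ≤ 2 ^ (K * m) * ((2 ^ 3) ^ (2 * m)) ^ s := by
          gcongr
          norm_num
      _ = 2 ^ (K * m + 6 * m * s) := by
          rw [← pow_mul, ← pow_mul, ← pow_add]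
          congr 1
          ring
      _ ≤ 2 ^ (L * m) := by
          apply Nat.pow_le_pow_right (by norm_num)
          rw [hL]
          nlinarith
  have hrad : (1 / 2 : ℝ) ^ s * Rk d r m + 2 * (A * Rk d r m + (1 / 2) ^ s * Rk d r m) / 2 ^ s ≤
      (2 * A + 3) * (1 / 2) ^ s * Rk d r m := by
    have e1 : 2 * (A * Rk d r m + (1 / 2) ^ s * Rk d r m) / 2 ^ s =
        2 * (A + (1 / 2) ^ s) * (1 / 2) ^ s * Rk d r m := by
      rw [one_div, inv_pow]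
      field_simp
    have e2 : (1 / 2 : ℝ) ^ s ≤ 1 := pow_le_one₀ (by norm_num) (by norm_num)
    have e3 : 0 < (1 / 2 : ℝ) ^ s * Rk d r m := by positivity
    rw [e1]
    nlinarith
  have hc1 := cov562 Θ hm (L * m) ((2 * A + 3) * (1 / 2) ^ s * Rk d r m) (by positivity) F' hcard
    (fun x hx => by
      obtain ⟨v, hv, h1⟩ := hF4 x hx
      exact ⟨v, hv, h1.trans hrad⟩)
  have hLm : 2 ≤ L * m := by rw [hL]; nlinarith
  have hc2 := (hlow (L * m) hLm).trans hc1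
  rw [ENNReal.ofReal_le_ofReal_iff (by positivity)] at hc2
  have h5 := Rk_mul562 d hd r hr L m (by omega) hm2
  have hL0 : (0 : ℝ) < (L : ℝ) ^ r := Real.rpow_pos_of_pos (by exact_mod_cast (by omega : 0 < L)) r
  have h6 : c * Rk d r m ≤ (L : ℝ) ^ r * ((2 * A + 3) * (1 / 2) ^ s * Rk d r m) := by
    calc c * Rk d r m ≤ c * ((L : ℝ) ^ r * Rk d r (L * m)) := by gcongr
      _ = (L : ℝ) ^ r * (c * Rk d r (L * m)) := by ring
      _ ≤ _ := by gcongr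
  have h7 : c ≤ (L : ℝ) ^ r * ((2 * A + 3) * (1 / 2) ^ s) := by
    apply le_of_mul_le_mul_right _ hR
    calc c * Rk d r m ≤ _ := h6
      _ = _ := by ring
  have h8 : c * 2 ^ s ≤ (2 * A + 3) * (L : ℝ) ^ r := by
    calc c * 2 ^ s ≤ (L : ℝ) ^ r * ((2 * A + 3) * (1 / 2) ^ s) * 2 ^ s := by gcongr
      _ = (2 * A + 3) * (L : ℝ) ^ r := by
        rw [one_div, inv_pow]
        field_simp
  linarith


end Sol_KX_carl

alias carl := Sol_KX_carl.carl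

end HypVol
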