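import Pool.Agent.EntX.Defs
import Pool.Agent.HypVol.DefsW
open MeasureTheory Real ProbabilityTheory
open scoped ENNReal BigOperators

namespace HypVol
namespace Sol_KX_shp_upper



theorem card_layer_le (d : ℕ) (hd : 1 ≤ d) : ∃ C : ℝ, 0 < C ∧ ∀ n : ℕ,
    ((layer d n).card : ℝ) ≤ C * 2^n * ((n:ℝ)+1)^(d-1) := by
  classical
  obtain ⟨e, rfl⟩ : ∃ e, d = e + 1 := ⟨d - 1, by omega⟩
  refine ⟨2^(e+1), by positivity, fun n => ?_⟩
  let T : Finset (Fin (e+1) → ℕ) :=
    (Fintype.piFinset (fun _ : Fin (e+1) => Finset.range (n+1))).filter (fun s => ∑ j, s j = n)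
  have hmemT : ∀ s, s ∈ T ↔ (∀ j, s j < n + 1) ∧ ∑ j, s j = n := by
    intro s
    simp only [T, Finset.mem_filter, Fintype.mem_piFinset, Finset.mem_range]
  have hT : T.card ≤ (n+1)^e := by
    have h1 : T.card ≤ (Fintype.piFinset (fun _ : Fin e => Finset.range (n+1))).card := by
      apply Finset.card_le_card_of_injOn (fun (s : Fin (e+1) → ℕ) => fun j : Fin e => s (Fin.succ j))
      · intro s hs
        have hs' := (hmemT s).1 (Finset.mem_coe.1 hs)
        rw [Finset.mem_coe, Fintype.mem_piFinset]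
        intro j
        rw [Finset.mem_range]
        exact hs'.1 _
      · intro s hs t ht hst
        have hs' := (hmemT s).1 (Finset.mem_coe.1 hs)
        have ht' := (hmemT t).1 (Finset.mem_coe.1 ht)
        have a := hs'.2
        have b := ht'.2
        rw [Fin.sum_univ_succ] at a b
        have c : ∑ i : Fin e, s (Fin.succ i) = ∑ i : Fin e, t (Fin.succ i) :=
          Finset.sum_congr rfl (fun i _ => congrFun hst i)
        funext j
        refine Fin.cases ?_ (fun i => congrFun hst i) j
        omega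
    rw [Fintype.card_piFinset] at h1
    simpa using h1
  have hsub : layer (e+1) n ⊆ T.biUnion (fun s => Fintype.piFinset
      (fun j => Finset.Ioo (-(2:ℤ)^(s j)) ((2:ℤ)^(s j)))) := by
    intro k hk
    unfold layer at hk
    rw [Finset.mem_filter] at hk
    obtain ⟨-, s, hs, hks⟩ := hk
    rw [Finset.mem_biUnion]
    refine ⟨s, ?_, ?_⟩
    · rw [hmemT]
      refine ⟨fun j => ?_, hs⟩
      have := Finset.single_le_sum (f := s) (fun i _ => Nat.zero_le _) (Finset.mem_univ j)
      omega
    · rw [Fintype.mem_piFinset]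
      intro j
      rw [Finset.mem_Ioo]
      exact abs_lt.1 (hks j).2
  have hcard : (layer (e+1) n).card ≤ T.card * (2^(e+1) * 2^n) := by
    refine (Finset.card_le_card hsub).trans ?_
    refine Finset.card_biUnion_le_card_mul _ _ _ ?_
    intro s hs
    have hs' := (hmemT s).1 hs
    rw [Fintype.card_piFinset]
    calc ∏ j, (Finset.Ioo (-(2:ℤ)^(s j)) ((2:ℤ)^(s j))).card
        ≤ ∏ j : Fin (e+1), (2 * 2^(s j)) := by
          apply Finset.prod_le_prod (fun _ _ => Nat.zero_le _)
          intro j _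
          rw [Int.card_Ioo]
          have h2 : (2:ℤ)^(s j) = ((2^(s j) : ℕ) : ℤ) := by push_cast; rfl
          rw [h2]
          omega
      _ = 2^(e+1) * 2^n := by
          rw [Finset.prod_mul_distrib, Finset.prod_const, Finset.prod_pow_eq_pow_sum, hs'.2]
          simp
  have hfin : (layer (e+1) n).card ≤ (n+1)^e * (2^(e+1) * 2^n) :=
    hcard.trans (Nat.mul_le_mul_right _ hT)
  calc ((layer (e+1) n).card : ℝ) ≤ (((n+1)^e * (2^(e+1) * 2^n) : ℕ) : ℝ) := by
        exact_mod_cast hfin
    _ = 2^(e+1) * 2^n * ((n:ℝ)+1)^(e+1-1) := by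
        push_cast
        ring


end Sol_KX_shp_upper

alias card_layer_le := Sol_KX_shp_upper.card_layer_le

end HypVol
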