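import Pool.Agent.EntX.Defs
import Pool.Agent.HypVol.DefsW
import Pool.Agent.HypVol.L_TP_prob
import Pool.Agent.KX.L_shp_upper
import Pool.Agent.EntX.L_fc_unique
open MeasureTheory Real ProbabilityTheory
open scoped ENNReal BigOperators

namespace HypVol
namespace Sol_KX_wf_split






/-- character -/
noncomputable def wchr {d : ℕ} (k : Fin d → ℤ) (x : Fin d → ℝ) : ℂ :=
  Complex.exp (Complex.I * ((∑ j, (k j : ℝ) * x j : ℝ) : ℂ))

theorem wchr_cont {d : ℕ} (k : Fin d → ℤ) : Continuous (wchr k) := by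
  unfold wchr
  fun_prop

theorem wchr_norm {d : ℕ} (k : Fin d → ℤ) (x : Fin d → ℝ) : ‖wchr k x‖ = 1 := by
  unfold wchr
  rw [mul_comm]
  exact Complex.norm_exp_ofReal_mul_I _

theorem wchr_add {d : ℕ} (k l : Fin d → ℤ) (x : Fin d → ℝ) :
    wchr (k + l) x = wchr k x * wchr l x := by
  unfold wchr
  rw [← Complex.exp_add, ← mul_add, ← Complex.ofReal_add, ← Finset.sum_add_distrib]
  congr 3
  refine Finset.sum_congr rfl ?_
  intro j _
  simp only [Pi.add_apply]
  push_cast
  ring

theorem wchr_neg {d : ℕ} (k : Fin d → ℤ) (x : Fin d → ℝ) :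
    wchr (-k) x = Complex.exp (-(Complex.I * ((∑ j, (k j : ℝ) * x j : ℝ) : ℂ))) := by
  unfold wchr
  congr 1
  rw [← mul_neg, ← Complex.ofReal_neg, ← Finset.sum_neg_distrib]
  congr 2
  refine Finset.sum_congr rfl ?_
  intro j _
  simp

theorem wchr_int1 (m : ℤ) : ∫ x, Complex.exp (Complex.I * (((m : ℝ) * x : ℝ) : ℂ))
    ∂(ENNReal.ofReal (2 * π)⁻¹ • (volume : Measure ℝ).restrict (Set.Ico 0 (2 * π))) =
    if m = 0 then 1 else 0 := by
  have hpi := Real.pi_pos
  rw [integral_smul_measure, integral_Ico_eq_integral_Ioc,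
    ← intervalIntegral.integral_of_le (by positivity), ENNReal.toReal_ofReal (by positivity)]
  split_ifs with h
  · rw [h]
    simp only [Int.cast_zero, zero_mul, Complex.ofReal_zero, mul_zero, Complex.exp_zero]
    rw [intervalIntegral.integral_const]
    simp
    have : (π : ℂ) ≠ 0 := by exact_mod_cast hpi.ne'
    field_simp
  · have hm : (Complex.I * (m : ℂ)) ≠ 0 := mul_ne_zero Complex.I_ne_zero (by exact_mod_cast h)
    have h1 := integral_exp_mul_complex (a := 0) (b := 2 * π) hm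
    have e : (fun x : ℝ => Complex.exp (Complex.I * (((m : ℝ) * x : ℝ) : ℂ))) =
        fun x : ℝ => Complex.exp (Complex.I * (m : ℂ) * x) := by
      funext x
      congr 1
      push_cast
      ring
    rw [e, h1]
    have h2 : Complex.exp (Complex.I * (m : ℂ) * ((2 * π : ℝ) : ℂ)) = 1 := by
      rw [show Complex.I * (m : ℂ) * ((2 * π : ℝ) : ℂ) = (m : ℂ) * (2 * π * Complex.I) by
        push_cast; ring]
      exact Complex.exp_int_mul_two_pi_mul_I m
    rw [h2]
    simp

theorem wchr_int {d : ℕ} (m : Fin d → ℤ) : ∫ x, wchr m x ∂(TP d) = if m = 0 then 1 else 0 := by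
  have hpr : ∀ x : Fin d → ℝ, wchr m x =
      ∏ j, Complex.exp (Complex.I * (((m j : ℝ) * x j : ℝ) : ℂ)) := by
    intro x
    unfold wchr
    rw [← Complex.exp_sum, ← Finset.mul_sum]
    push_cast
    rfl
  simp only [hpr]
  unfold TP
  haveI : IsFiniteMeasure (ENNReal.ofReal (2 * π)⁻¹ •
      (volume : Measure ℝ).restrict (Set.Ico 0 (2 * π))) := by
    constructor
    simp [ENNReal.mul_lt_top_iff]
  rw [integral_fintype_prod_eq_prod (fun (j : Fin d) (x : ℝ) =>
    Complex.exp (Complex.I * (((m j : ℝ) * x : ℝ) : ℂ)))]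
  simp only [wchr_int1]
  rw [Finset.prod_ite_zero]
  simp only [Finset.mem_univ, forall_true_left, Finset.prod_const_one]
  congr 1
  exact propext ⟨fun h => funext fun j => h j, fun h j => by rw [h]; rfl⟩

theorem wfc {d : ℕ} (g : (Fin d → ℝ) → ℂ) (k : Fin d → ℤ) :
    fc g k = ∫ x, g x * wchr (-k) x ∂(TP d) := by
  unfold fc
  simp only [wchr_neg]

theorem wchr_conj {d : ℕ} (k : Fin d → ℤ) (x : Fin d → ℝ) :
    (starRingEnd ℂ) (wchr k x) = wchr (-k) x := by
  rw [wchr_neg]
  unfold wchr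
  rw [← Complex.exp_conj]
  congr 1
  rw [map_mul, Complex.conj_I, Complex.conj_ofReal]
  ring

theorem wbessel {d : ℕ} (p : ℝ≥0∞) (hp : 2 ≤ p) (φ : (Fin d → ℝ) → ℂ) (hφ : MemLp φ p (TP d))
    (h1 : eLpNorm φ p (TP d) ≤ 1) (S : Finset (Fin d → ℤ)) : ∑ k ∈ S, ‖fc φ k‖ ^ 2 ≤ 1 := by
  haveI := TP_prob d
  have hφ2 : MemLp φ 2 (TP d) := hφ.mono_exponent hp
  have hc : ∀ k : Fin d → ℤ, MemLp (wchr k) 2 (TP d) := fun k =>
    MemLp.of_bound (wchr_cont k).aestronglyMeasurable 1
      (Filter.Eventually.of_forall fun x => (wchr_norm k x).le)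
  have hinner : ∀ (k : Fin d → ℤ) (g : (Fin d → ℝ) → ℂ) (hg : MemLp g 2 (TP d)),
      inner ℂ ((hc k).toLp) (hg.toLp) = fc g k := by
    intro k g hg
    rw [L2.inner_def, wfc]
    apply integral_congr_ae
    filter_upwards [(hc k).coeFn_toLp, hg.coeFn_toLp] with x hx hy
    rw [hx, hy, RCLike.inner_apply, wchr_conj]
  have hfcc : ∀ k l : Fin d → ℤ, fc (wchr l) k = if l = k then 1 else 0 := by
    intro k l
    rw [wfc]
    simp only [← wchr_add]
    rw [wchr_int]
    congr 1
    exact propext ⟨fun h => by rwa [← sub_eq_add_neg, sub_eq_zero] at h,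
      fun h => by rw [h]; simp⟩
  have horth : Orthonormal ℂ (fun k : Fin d → ℤ => (hc k).toLp) := by
    rw [orthonormal_iff_ite]
    intro k l
    rw [hinner k (wchr l) (hc l), hfcc]
    by_cases h : l = k
    · simp [h]
    · rw [if_neg h, if_neg (Ne.symm h)]
  have hb := horth.sum_inner_products_le (x := hφ2.toLp) (s := S)
  simp only [hinner] at hb
  refine hb.trans ?_
  rw [Lp.norm_toLp]
  have h2 : eLpNorm φ 2 (TP d) ≤ 1 :=
    (eLpNorm_le_eLpNorm_of_exponent_le hp hφ.1).trans h1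
  have h3 : (eLpNorm φ 2 (TP d)).toReal ≤ 1 := by
    have := ENNReal.toReal_mono ENNReal.one_ne_top h2
    simpa using this
  nlinarith [ENNReal.toReal_nonneg (a := eLpNorm φ 2 (TP d))]

/-- index of the layer of `k` -/
def wN {d : ℕ} (k : Fin d → ℤ) : ℕ := ∑ j, Nat.size (k j).natAbs

theorem wrho_iff (k : ℤ) (s : ℕ) : k ∈ rho s ↔ s = Nat.size k.natAbs := by
  unfold rho
  have habs : |k| = (k.natAbs : ℤ) := (Int.natCast_natAbs k).symm
  simp only [Set.mem_ofPred_eq, habs]
  rcases s with _ | t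
  · constructor
    · rintro ⟨-, h⟩
      have h0 : k.natAbs = 0 := by
        have : (k.natAbs : ℤ) < 1 := by simpa using h
        omega
      rw [h0, Nat.size_zero]
    · intro h
      have h1 : k.natAbs < 2 ^ 0 := Nat.size_le.1 (le_of_eq h.symm)
      have h0 : k.natAbs = 0 := by simpa using h1
      rw [h0]
      norm_num
  · have e : (2:ℤ) ^ (t + 1) / 2 = 2 ^ t := by
      rw [pow_succ]
      exact Int.mul_ediv_cancel _ (by norm_num)
    rw [e]
    constructor
    · rintro ⟨h1, h2⟩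
      have h1' : 2 ^ t ≤ k.natAbs := by exact_mod_cast h1
      have h2' : k.natAbs < 2 ^ (t + 1) := by exact_mod_cast h2
      have h3 := Nat.lt_size.2 h1'
      have h4 := Nat.size_le.2 h2'
      omega
    · intro h
      have h1 : 2 ^ t ≤ k.natAbs := Nat.lt_size.1 (by omega)
      have h2 : k.natAbs < 2 ^ (t + 1) := Nat.size_le.1 (by omega)
      exact ⟨by exact_mod_cast h1, by exact_mod_cast h2⟩

theorem wlayer_iff {d n : ℕ} (k : Fin d → ℤ) : k ∈ layer d n ↔ n = wN k := by
  classical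
  unfold layer
  rw [Finset.mem_filter, Fintype.mem_piFinset]
  constructor
  · rintro ⟨-, s, hs, hk⟩
    rw [← hs]
    unfold wN
    refine Finset.sum_congr rfl ?_
    intro j _
    exact (wrho_iff _ _).1 (hk j)
  · intro h
    refine ⟨?_, fun j => Nat.size (k j).natAbs, h.symm, fun j => (wrho_iff _ _).2 rfl⟩
    intro j
    have h1 : Nat.size (k j).natAbs ≤ n := by
      rw [h]
      exact Finset.single_le_sum (f := fun j => Nat.size (k j).natAbs) (fun _ _ => Nat.zero_le _)
        (Finset.mem_univ j)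
    have h2 : (k j).natAbs < 2 ^ n := Nat.size_le.1 h1
    have h3 : |k j| < (2:ℤ) ^ n := by
      rw [← Int.natCast_natAbs (k j)]
      exact_mod_cast h2
    rw [Finset.mem_Ioo]
    exact abs_lt.1 h3

theorem wFh {d n : ℕ} (r : ℝ) (hr : 0 < r) (α : Fin d → ℝ) (k : Fin d → ℤ)
    (hk : k ∈ layer d n) : ‖Fh r α k‖ ≤ (2:ℝ) ^ (r * d) * (2:ℝ) ^ (-(r * n)) := by
  have hn := (wlayer_iff k).1 hk
  unfold Fh
  rw [norm_prod]
  have hfac : ∀ j, ‖(if k j = 0 then (1:ℂ) else (((|(k j : ℝ)|)^(-r) : ℝ) : ℂ) *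
    Complex.exp (-(Complex.I * (((SignType.sign (k j) : ℤ) : ℝ) * α j * π / 2 : ℝ))))‖ ≤
      (2:ℝ) ^ r * (2:ℝ) ^ (-(r * (Nat.size (k j).natAbs : ℝ))) := by
    intro j
    split_ifs with h
    · rw [h]
      simp
      exact Real.one_le_rpow (by norm_num) hr.le
    · have e : ‖Complex.exp (-(Complex.I * (((SignType.sign (k j) : ℤ) : ℝ) * α j * π / 2 : ℝ)))‖
          = 1 := by
        rw [Complex.norm_exp]
        simp
      rw [norm_mul, e, mul_one, Complex.norm_real, Real.norm_of_nonneg (by positivity)]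
      have h0 : 0 < (k j).natAbs := Int.natAbs_pos.2 h
      have hs : 0 < Nat.size (k j).natAbs := Nat.size_pos.2 h0
      have h1 : 2 ^ (Nat.size (k j).natAbs - 1) ≤ (k j).natAbs := Nat.lt_size.1 (by omega)
      have h2 : (2:ℝ) ^ ((Nat.size (k j).natAbs : ℝ) - 1) ≤ |(k j : ℝ)| := by
        have h3 : ((2:ℝ) ^ (Nat.size (k j).natAbs - 1)) ≤ ((k j).natAbs : ℝ) := by exact_mod_cast h1
        have h4 : ((k j).natAbs : ℝ) = |(k j : ℝ)| := by
          rw [← Int.cast_abs, ← Int.natCast_natAbs]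
          simp
        rw [← h4]
        refine le_trans (le_of_eq ?_) h3
        rw [← Real.rpow_natCast, Nat.cast_sub (by omega)]
        simp
      calc |(k j : ℝ)| ^ (-r) ≤ ((2:ℝ) ^ ((Nat.size (k j).natAbs : ℝ) - 1)) ^ (-r) :=
            Real.rpow_le_rpow_of_nonpos (by positivity) h2 (by linarith)
        _ = (2:ℝ) ^ r * (2:ℝ) ^ (-(r * (Nat.size (k j).natAbs : ℝ))) := by
            rw [← Real.rpow_mul (by norm_num), ← Real.rpow_add (by norm_num)]
            congr 1
            ring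
  refine (Finset.prod_le_prod (fun _ _ => norm_nonneg _) (fun j _ => hfac j)).trans (le_of_eq ?_)
  rw [Finset.prod_mul_distrib, Finset.prod_const, Finset.card_univ, Fintype.card_fin,
    ← Real.rpow_natCast, ← Real.rpow_mul (by norm_num)]
  congr 1
  rw [← Real.rpow_sum_of_pos (by norm_num : (0:ℝ) < 2)]
  congr 1
  rw [Finset.sum_neg_distrib, ← Finset.mul_sum, hn]
  unfold wN
  push_cast
  rfl


theorem wsum {d : ℕ} (r : ℝ) (hr : 1/2 < r) (C : ℝ) (hC : 0 ≤ C) :
    Summable (fun n : ℕ => Real.sqrt ((layer d n).card : ℝ) * (C * (2:ℝ)^(-(r * n)))) := by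
  obtain ⟨C', hC', hcard⟩ : ∃ C' : ℝ, 0 < C' ∧ ∀ n : ℕ,
      ((layer d n).card : ℝ) ≤ C' * 2^n * ((n:ℝ)+1)^(d-1) := by
    rcases Nat.eq_zero_or_pos d with h | h
    · subst h
      refine ⟨1, one_pos, fun n => ?_⟩
      have h1 : (layer 0 n).card ≤ 1 := Finset.card_le_one.2 fun a _ b _ => Subsingleton.elim a b
      have h2 : ((layer 0 n).card : ℝ) ≤ 1 := by exact_mod_cast h1
      have h3 : (1:ℝ) ≤ 2 ^ n := one_le_pow₀ (by norm_num)
      simpa using h2.trans h3
    · exact card_layer_le d h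
  have hρ0 : 0 < (2:ℝ) ^ (1/2 - r) := by positivity
  have hρ1 : (2:ℝ) ^ (1/2 - r) < 1 := Real.rpow_lt_one_of_one_lt_of_neg (by norm_num) (by linarith)
  have hs : Summable (fun n : ℕ => (n:ℝ)^(d-1) * ((2:ℝ) ^ (1/2 - r))^n) :=
    summable_pow_mul_geometric_of_norm_lt_one (d-1) (by rw [Real.norm_of_nonneg hρ0.le]; exact hρ1)
  have hs2 := ((summable_nat_add_iff 1).2 hs).mul_left
    (Real.sqrt C' * C * ((2:ℝ) ^ (1/2 - r))⁻¹)
  refine Summable.of_nonneg_of_le (fun n => by positivity) (fun n => ?_) hs2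
  have h1 : (1:ℝ) ≤ ((n:ℝ)+1)^(d-1) := one_le_pow₀ (by linarith [Nat.cast_nonneg (α := ℝ) n])
  have h2 : Real.sqrt ((layer d n).card : ℝ) ≤
      Real.sqrt C' * (2:ℝ) ^ ((n:ℝ)/2) * ((n:ℝ)+1)^(d-1) := by
    rw [Real.sqrt_le_left (by positivity)]
    refine (hcard n).trans ?_
    have e1 : (Real.sqrt C' * (2:ℝ) ^ ((n:ℝ)/2) * ((n:ℝ)+1)^(d-1))^2 =
        C' * 2^n * (((n:ℝ)+1)^(d-1))^2 := by
      rw [mul_pow, mul_pow, Real.sq_sqrt hC'.le, ← Real.rpow_natCast ((2:ℝ) ^ ((n:ℝ)/2)) 2,
        ← Real.rpow_mul (by norm_num)]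
      congr 2
      rw [← Real.rpow_natCast]
      congr 1
      push_cast
      ring
    rw [e1]
    apply mul_le_mul_of_nonneg_left _ (by positivity)
    nlinarith
  calc Real.sqrt ((layer d n).card : ℝ) * (C * (2:ℝ)^(-(r * n)))
      ≤ (Real.sqrt C' * (2:ℝ) ^ ((n:ℝ)/2) * ((n:ℝ)+1)^(d-1)) * (C * (2:ℝ)^(-(r * n))) :=
        mul_le_mul_of_nonneg_right h2 (by positivity)
    _ = Real.sqrt C' * C * ((n:ℝ)+1)^(d-1) * ((2:ℝ) ^ ((n:ℝ)/2) * (2:ℝ)^(-(r * n))) := by ring
    _ = Real.sqrt C' * C * ((n:ℝ)+1)^(d-1) * ((2:ℝ) ^ (1/2 - r))^n := by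
        rw [← Real.rpow_add (by norm_num), ← Real.rpow_natCast ((2:ℝ) ^ (1/2 - r)) n,
          ← Real.rpow_mul (by norm_num)]
        congr 2
        ring
    _ = Real.sqrt C' * C * ((2:ℝ) ^ (1/2 - r))⁻¹ *
        (((n + 1 : ℕ) : ℝ)^(d-1) * ((2:ℝ) ^ (1/2 - r))^(n+1)) := by
        rw [pow_succ]
        push_cast
        field_simp

theorem wf_split (d : ℕ) (r : ℝ) (hr : 1/2 < r) (α : Fin d → ℝ) : ∃ C : ℝ, 0 < C ∧
    ∀ (p : ℝ≥0∞), 2 ≤ p → ∀ f ∈ WF d r p α, ∃ A : ∀ n : ℕ, (layer d n) × Fin 2 → ℝ,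
      (∀ n, ∑ i, A n i ^ 2 ≤ (C * (2:ℝ)^(-(r * n)))^2) ∧ ∀ᵐ x ∂(TP d), HasSum (fun n => poly (A n) x) (f x) := by
  have hr0 : 0 < r := by linarith
  refine ⟨(2:ℝ) ^ (r * d), by positivity, ?_⟩
  intro p hp f hf
  haveI := TP_prob d
  obtain ⟨hf1, φ, hφ, hφ1, hfc⟩ := hf
  obtain ⟨c, hc⟩ : ∃ c : (Fin d → ℤ) → ℂ, ∀ k, c k = Fh r α k * fc φ k := ⟨_, fun _ => rfl⟩
  obtain ⟨A, hA⟩ : ∃ A : ∀ n : ℕ, (layer d n) × Fin 2 → ℝ, ∀ n i, A n i =
      if i.2 = 0 then (c i.1.1).re else (c i.1.1).im := ⟨_, fun _ _ => rfl⟩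
  have hpoly : ∀ n x, poly (A n) x = ∑ k : layer d n, c k.1 * wchr k.1 x := by
    intro n x
    unfold poly
    refine Finset.sum_congr rfl ?_
    intro k _
    have h1 : A n (k, 0) = (c k.1).re := by rw [hA]; simp
    have h2 : A n (k, 1) = (c k.1).im := by rw [hA]; simp
    rw [h1, h2, Complex.re_add_im]
    rfl
  have hsq : ∀ n, ∑ k : layer d n, ‖c k.1‖ ^ 2 ≤ ((2:ℝ) ^ (r * d) * (2:ℝ) ^ (-(r * n))) ^ 2 := by
    intro n
    have h1 : ∀ k : layer d n, ‖c k.1‖ ^ 2 ≤
        ((2:ℝ) ^ (r * d) * (2:ℝ) ^ (-(r * n))) ^ 2 * ‖fc φ k.1‖ ^ 2 := by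
      intro k
      rw [hc, norm_mul, mul_pow]
      apply mul_le_mul_of_nonneg_right _ (by positivity)
      exact pow_le_pow_left₀ (norm_nonneg _) (wFh r hr0 α k.1 k.2) 2
    refine (Finset.sum_le_sum fun k _ => h1 k).trans ?_
    rw [← Finset.mul_sum]
    have h2 := wbessel p hp φ hφ hφ1 (layer d n)
    rw [← Finset.sum_coe_sort] at h2
    calc _ ≤ ((2:ℝ) ^ (r * d) * (2:ℝ) ^ (-(r * n))) ^ 2 * 1 :=
          mul_le_mul_of_nonneg_left h2 (by positivity)
      _ = _ := mul_one _
  refine ⟨A, ?_, ?_⟩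
  · intro n
    refine le_trans (le_of_eq ?_) (hsq n)
    rw [Fintype.sum_prod_type]
    refine Finset.sum_congr rfl ?_
    intro k _
    rw [Fin.sum_univ_two, hA, hA]
    simp only [if_true]
    rw [← Complex.normSq_eq_norm_sq, Complex.normSq_apply]
    simp
    ring
  · have hbound : ∀ n x, ‖poly (A n) x‖ ≤
        Real.sqrt ((layer d n).card : ℝ) * ((2:ℝ) ^ (r * d) * (2:ℝ)^(-(r * n))) := by
      intro n x
      rw [hpoly]
      have h1 : ‖∑ k : layer d n, c k.1 * wchr k.1 x‖ ≤ ∑ k : layer d n, 1 * ‖c k.1‖ := by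
        refine (norm_sum_le _ _).trans (Finset.sum_le_sum fun k _ => ?_)
        rw [norm_mul, wchr_norm, mul_one, one_mul]
      have h2 := Finset.sum_mul_sq_le_sq_mul_sq Finset.univ (fun _ : layer d n => (1:ℝ))
        (fun k => ‖c k.1‖)
      simp only [one_pow, Finset.sum_const, Finset.card_univ, Fintype.card_coe, nsmul_eq_mul,
        mul_one] at h2
      refine h1.trans ((sq_le_sq₀ (Finset.sum_nonneg fun _ _ => by positivity)
        (by positivity)).1 ?_)
      rw [mul_pow, Real.sq_sqrt (by positivity)]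
      refine h2.trans ?_
      exact mul_le_mul_of_nonneg_left (hsq n) (by positivity)
    have hsum := wsum (d := d) r hr ((2:ℝ) ^ (r * d)) (by positivity)
    have hpc : ∀ n, Continuous (fun x => poly (A n) x) := by
      intro n
      have e : (fun x => poly (A n) x) = fun x => ∑ k : layer d n, c k.1 * wchr k.1 x :=
        funext (hpoly n)
      rw [e]
      exact continuous_finsetSum _ fun k _ => continuous_const.mul (wchr_cont _)
    have hsx : ∀ x, Summable (fun n => poly (A n) x) := fun x =>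
      Summable.of_norm_bounded hsum (fun n => hbound n x)
    obtain ⟨g, hg⟩ : ∃ g : (Fin d → ℝ) → ℂ, ∀ x, g x = ∑' n, poly (A n) x := ⟨_, fun _ => rfl⟩
    have hgc : Continuous g := by
      rw [funext hg]
      exact continuous_tsum hpc hsum hbound
    have hgb : ∀ x, ‖g x‖ ≤ ∑' n : ℕ, Real.sqrt ((layer d n).card : ℝ) *
        ((2:ℝ) ^ (r * d) * (2:ℝ)^(-(r * n))) := by
      intro x
      rw [hg]
      exact tsum_of_norm_bounded hsum.hasSum (fun n => hbound n x)
    have hgi : Integrable g (TP d) :=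
      Integrable.of_bound hgc.aestronglyMeasurable _ (Filter.Eventually.of_forall hgb)
    have hfi : Integrable f (TP d) := memLp_one_iff_integrable.1 hf1
    have hfcg : ∀ k, fc g k = c k := by
      intro k
      rw [wfc]
      have hI : ∀ n, Integrable (fun x => poly (A n) x * wchr (-k) x) (TP d) := fun n =>
        Integrable.of_bound ((hpc n).mul (wchr_cont _)).aestronglyMeasurable _
          (Filter.Eventually.of_forall fun x => by
            rw [norm_mul, wchr_norm, mul_one]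
            exact hbound n x)
      have hnorm : ∀ n, ∫ x, ‖poly (A n) x * wchr (-k) x‖ ∂(TP d) ≤
          Real.sqrt ((layer d n).card : ℝ) * ((2:ℝ) ^ (r * d) * (2:ℝ)^(-(r * n))) := by
        intro n
        have h1 := integral_mono (hI n).norm (integrable_const (μ := TP d)
          (Real.sqrt ((layer d n).card : ℝ) * ((2:ℝ) ^ (r * d) * (2:ℝ)^(-(r * n))))) (fun x => by
            show ‖poly (A n) x * wchr (-k) x‖ ≤ _
            rw [norm_mul, wchr_norm, mul_one]
            exact hbound n x)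
        simpa using h1
      have hS : Summable (fun n => ∫ x, ‖poly (A n) x * wchr (-k) x‖ ∂(TP d)) :=
        Summable.of_nonneg_of_le (fun n => integral_nonneg fun x => norm_nonneg _) hnorm hsum
      have h1 := hasSum_integral_of_summable_integral_norm hI hS
      have h2 : ∀ n, ∫ x, poly (A n) x * wchr (-k) x ∂(TP d) = if n = wN k then c k else 0 := by
        intro n
        have e : (fun x => poly (A n) x * wchr (-k) x) =
            fun x => ∑ l : layer d n, c l.1 * wchr (l.1 + -k) x := by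
          funext x
          rw [hpoly, Finset.sum_mul]
          refine Finset.sum_congr rfl ?_
          intro l _
          rw [wchr_add]
          ring
        rw [e, integral_finsetSum _ fun l _ => (Integrable.of_bound
          (wchr_cont _).aestronglyMeasurable 1 (Filter.Eventually.of_forall fun x =>
            (wchr_norm _ x).le)).const_mul _]
        simp only [integral_const_mul, wchr_int]
        split_ifs with hn
        · have hk : k ∈ layer d n := (wlayer_iff k).2 hn
          rw [Finset.sum_eq_single (⟨k, hk⟩ : layer d n)]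
          · simp
          · intro l _ hl
            rw [if_neg, mul_zero]
            intro h
            apply hl
            apply Subtype.ext
            exact sub_eq_zero.1 (by rw [sub_eq_add_neg]; exact h)
          · intro h
            exact absurd (Finset.mem_univ _) h
        · refine Finset.sum_eq_zero ?_
          intro l _
          rw [if_neg, mul_zero]
          intro h
          apply hn
          have : l.1 = k := sub_eq_zero.1 (by rw [sub_eq_add_neg]; exact h)
          rw [← this]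
          exact (wlayer_iff l.1).1 l.2
      simp only [h2] at h1
      have h3 := h1.unique (hasSum_ite_eq (wN k) (c k))
      have e : (fun x => g x * wchr (-k) x) = fun x => ∑' n, poly (A n) x * wchr (-k) x := by
        funext x
        rw [hg, tsum_mul_right]
      rw [e]
      exact h3
    have hzero := fc_unique (fun x => f x - g x) (hfi.sub hgi) (by
      intro k
      rw [wfc]
      have h1 : ∀ h : (Fin d → ℝ) → ℂ, Integrable h (TP d) →
          Integrable (fun x => h x * wchr (-k) x) (TP d) := fun h hh =>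
        hh.mul_bdd (c := 1) (wchr_cont _).aestronglyMeasurable
          (Filter.Eventually.of_forall fun x => (wchr_norm _ x).le)
      have e : (fun x => (f x - g x) * wchr (-k) x) =
          fun x => f x * wchr (-k) x - g x * wchr (-k) x := by
        funext x
        ring
      rw [e, integral_sub (h1 f hfi) (h1 g hgi), ← wfc, ← wfc, hfcg, hfc, hc, sub_self])
    filter_upwards [hzero] with x hx
    have hx' : f x - g x = 0 := hx
    have hx2 : f x = g x := sub_eq_zero.1 hx'
    rw [hx2, hg]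
    exact (hsx x).hasSum


end Sol_KX_wf_split

alias wf_split := Sol_KX_wf_split.wf_split

end HypVol
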