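import Pool.Agent.EntX.Defs
import Pool.Agent.HypVol.DefsW
import Pool.Agent.KX.L_wf_split
import Pool.Agent.KX.L_shp_upper
import Pool.Agent.HypVol.L_TP_prob
import Pool.Agent.KX.L_ML_mem
open MeasureTheory Real ProbabilityTheory
open scoped ENNReal BigOperators

namespace HypVol
namespace Sol_KX_ml_bdd








theorem x330_norm_toC {𝕜 : Type} [RCLike 𝕜] (z : 𝕜) : ‖toC z‖ = ‖z‖ := by
  have h1 : ‖toC z‖ ^ 2 = ‖z‖ ^ 2 := by
    rw [← Complex.normSq_eq_norm_sq, ← RCLike.normSq_eq_def']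
    unfold toC
    rw [Complex.normSq_apply, RCLike.normSq_apply]
    simp
  have := (sq_eq_sq₀ (norm_nonneg _) (norm_nonneg _)).mp h1
  exact this

theorem x330_recover {𝕜 : Type} [RCLike 𝕜] (z : 𝕜) :
    (((toC z).re : ℝ) : 𝕜) + (((toC z).im : ℝ) : 𝕜) * RCLike.I = z := by
  have h1 : (toC z).re = RCLike.re z := by unfold toC; simp
  have h2 : (toC z).im = RCLike.im z := by unfold toC; simp
  rw [h1, h2]
  exact RCLike.re_add_im z

theorem x330_poly_le {d n : ℕ} (a : (layer d n) × Fin 2 → ℝ) (x : Fin d → ℝ) :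
    ‖poly a x‖ ≤ Real.sqrt ((layer d n).card) * Real.sqrt (∑ i, a i ^ 2) := by
  unfold poly
  have h1 : ‖∑ k : layer d n, ((a (k, 0) : ℂ) + (a (k, 1) : ℂ) * Complex.I) *
      Complex.exp (Complex.I * ((∑ j, (k.1 j : ℝ) * x j : ℝ) : ℂ))‖ ≤
      ∑ k : layer d n, Real.sqrt (a (k, 0) ^ 2 + a (k, 1) ^ 2) := by
    refine (norm_sum_le _ _).trans (Finset.sum_le_sum (fun k _ => ?_))
    rw [norm_mul]
    have h2 : ‖Complex.exp (Complex.I * ((∑ j, (k.1 j : ℝ) * x j : ℝ) : ℂ))‖ = 1 := by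
      rw [mul_comm]
      exact Complex.norm_exp_ofReal_mul_I _
    rw [h2, mul_one]
    rw [Complex.norm_add_mul_I]
  refine h1.trans ?_
  have h3 : (∑ k : layer d n, Real.sqrt (a (k, 0) ^ 2 + a (k, 1) ^ 2)) ≤
      Real.sqrt (∑ k : layer d n, (1:ℝ)^2) * Real.sqrt (∑ k : layer d n, (Real.sqrt (a (k, 0) ^ 2 + a (k, 1) ^ 2))^2) := by
    have := Real.sum_mul_le_sqrt_mul_sqrt (Finset.univ : Finset (layer d n)) (fun _ => (1:ℝ))
      (fun k => Real.sqrt (a (k, 0) ^ 2 + a (k, 1) ^ 2))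
    simpa using this
  refine h3.trans ?_
  have h4 : (∑ k : layer d n, (1:ℝ)^2) = ((layer d n).card : ℝ) := by
    simp
  have h5 : (∑ k : layer d n, (Real.sqrt (a (k, 0) ^ 2 + a (k, 1) ^ 2))^2) = ∑ i, a i ^ 2 := by
    rw [Fintype.sum_prod_type]
    refine Finset.sum_congr rfl (fun k _ => ?_)
    rw [Real.sq_sqrt (by positivity), Fin.sum_univ_two]
  rw [h4, h5]

theorem x330_summable (m : ℕ) (r : ℝ) (hr : 1/2 < r) :
    Summable (fun n : ℕ => ((n:ℝ)+1)^m * ((2:ℝ)^(1/2 - r))^n) := by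
  set ρ : ℝ := (2:ℝ)^(1/2 - r) with hρ
  have hρ0 : 0 < ρ := Real.rpow_pos_of_pos (by norm_num) _
  have hρ1 : ρ < 1 := Real.rpow_lt_one_of_one_lt_of_neg (by norm_num) (by linarith)
  have h1 : Summable (fun n : ℕ => (n:ℝ)^m * ρ^n) :=
    summable_pow_mul_geometric_of_norm_lt_one m (by rw [Real.norm_of_nonneg hρ0.le]; exact hρ1)
  have h2 := (summable_nat_add_iff 1).mpr h1
  have h3 := h2.mul_right (ρ⁻¹)
  refine h3.congr (fun n => ?_)
  push_cast
  rw [pow_succ]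
  field_simp

theorem x330_pow2 (r : ℝ) (n : ℕ) : Real.sqrt ((2:ℝ)^n) * (2:ℝ)^(-(r * n)) = ((2:ℝ)^(1/2 - r))^n := by
  rw [← Real.rpow_natCast (2:ℝ) n, Real.sqrt_eq_rpow, ← Real.rpow_mul (by norm_num), ← Real.rpow_add (by norm_num),
    ← Real.rpow_natCast ((2:ℝ)^(1/2 - r)) n, ← Real.rpow_mul (by norm_num)]
  congr 1
  ring

theorem ml_bdd (𝕜 : Type) [RCLike 𝕜] (d : ℕ) (hd : 1 ≤ d) (q : ℝ≥0∞) (hq : 2 ≤ q) (r : ℝ) (hr : 1/2 < r)
    (α : Fin d → ℝ) : ∃ B : ℝ, 0 < B ∧ ∀ f ∈ ML 𝕜 d r q α, MemLp f ⊤ (TP d) ∧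
      eLpNorm f ⊤ (TP d) ≤ ENNReal.ofReal B := by
  obtain ⟨C, hC, hsplit⟩ := wf_split d r hr α
  obtain ⟨C', hC', hcard⟩ := card_layer_le d hd
  have hsum := x330_summable (d-1) r hr
  let b : ℕ → ℝ := fun n => (Real.sqrt C' * C) * (((n:ℝ)+1)^(d-1) * ((2:ℝ)^(1/2 - r))^n)
  have hb : Summable b := hsum.mul_left _
  have hb0 : ∀ n, 0 ≤ b n := fun n => by
    have : (0:ℝ) < (2:ℝ)^(1/2 - r) := Real.rpow_pos_of_pos (by norm_num) _
    positivity
  refine ⟨(∑' n, b n) + 1, by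
    have h0 : 0 ≤ ∑' n, b n := tsum_nonneg hb0
    linarith, ?_⟩
  intro f hf
  have hW := ML_memC 𝕜 q (le_trans (by norm_num) hq) r (by linarith) α f hf
  obtain ⟨A, hA1, hA2⟩ := hsplit q hq _ hW
  have hmeas : AEStronglyMeasurable f (TP d) := by
    have h1 : AEStronglyMeasurable (fun x => toC (f x)) (TP d) := hW.1.1
    have h2 : Continuous (fun w : ℂ => ((w.re : ℝ) : 𝕜) + ((w.im : ℝ) : 𝕜) * RCLike.I) := by
      refine Continuous.add ?_ (Continuous.mul ?_ continuous_const)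
      · exact RCLike.continuous_ofReal.comp Complex.continuous_re
      · exact RCLike.continuous_ofReal.comp Complex.continuous_im
    have h3 := h2.comp_aestronglyMeasurable h1
    refine h3.congr (Filter.Eventually.of_forall (fun x => ?_))
    exact x330_recover (f x)
  have hbound : ∀ n x, ‖poly (A n) x‖ ≤ b n := by
    intro n x
    refine (x330_poly_le (A n) x).trans ?_
    have h1 : Real.sqrt (∑ i, A n i ^ 2) ≤ C * (2:ℝ)^(-(r * n)) := by
      rw [Real.sqrt_le_left (by positivity)]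
      exact hA1 n
    have h2 : Real.sqrt ((layer d n).card) ≤ Real.sqrt C' * Real.sqrt ((2:ℝ)^n) * ((n:ℝ)+1)^(d-1) := by
      have h3 : Real.sqrt ((layer d n).card) ≤ Real.sqrt (C' * 2^n * ((n:ℝ)+1)^(d-1)) :=
        Real.sqrt_le_sqrt (hcard n)
      refine h3.trans ?_
      rw [Real.sqrt_mul (by positivity), Real.sqrt_mul hC'.le]
      refine mul_le_mul_of_nonneg_left ?_ (by positivity)
      rw [Real.sqrt_le_left (by positivity)]
      have h4 : (1:ℝ) ≤ ((n:ℝ)+1)^(d-1) := one_le_pow₀ (by linarith [Nat.cast_nonneg (α := ℝ) n])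
      nlinarith
    calc Real.sqrt ((layer d n).card) * Real.sqrt (∑ i, A n i ^ 2)
        ≤ (Real.sqrt C' * Real.sqrt ((2:ℝ)^n) * ((n:ℝ)+1)^(d-1)) * (C * (2:ℝ)^(-(r * n))) :=
          mul_le_mul h2 h1 (Real.sqrt_nonneg _) (by positivity)
      _ = (Real.sqrt C' * C) * (((n:ℝ)+1)^(d-1) * (Real.sqrt ((2:ℝ)^n) * (2:ℝ)^(-(r * n)))) := by ring
      _ = b n := by rw [x330_pow2]
  have hae : ∀ᵐ x ∂(TP d), ‖f x‖ ≤ (∑' n, b n) + 1 := by
    filter_upwards [hA2] with x hx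
    rw [← x330_norm_toC]
    have h1 : Summable (fun n => ‖poly (A n) x‖) :=
      Summable.of_nonneg_of_le (fun n => norm_nonneg _) (fun n => hbound n x) hb
    have h2 : ‖toC (f x)‖ ≤ ∑' n, b n := by
      rw [← hx.tsum_eq]
      refine (norm_tsum_le_tsum_norm h1).trans ?_
      exact h1.tsum_le_tsum (fun n => hbound n x) hb
    linarith
  refine ⟨memLp_top_of_bound hmeas _ hae, ?_⟩
  rw [eLpNorm_exponent_top]
  exact eLpNormEssSup_le_of_ae_bound hae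


end Sol_KX_ml_bdd

alias ml_bdd := Sol_KX_ml_bdd.ml_bdd

end HypVol
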