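import Pool.Agent.EntX.Defs
import Pool.Agent.HypVol.DefsW
import Pool.Agent.KX.L_shp_upper
open MeasureTheory Real ProbabilityTheory
open scoped ENNReal BigOperators

namespace HypVol
namespace Sol_KX_num_up2




theorem num_upw_summ (k : ℕ) (x : ℝ) (hx0 : 0 < x) (hx1 : x < 1) :
    Summable (fun n : ℕ => ((n:ℝ) + 1) ^ k * x ^ n) := by
  have h1 : Summable (fun n : ℕ => (n:ℝ) ^ k * x ^ n) :=
    summable_pow_mul_geometric_of_norm_lt_one k (by rw [Real.norm_of_nonneg hx0.le]; exact hx1)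
  have h2 := ((summable_nat_add_iff 1).2 h1).mul_left (x⁻¹)
  refine h2.congr (fun n => ?_)
  push_cast
  rw [pow_succ]
  field_simp

/-- tail term -/
theorem num_upw_T (P : ℕ) (d : ℕ) (K u : ℝ) (hK : 1 ≤ K) (hu : 1 ≤ u) (hu8 : u ^ (2 * P) = 2) (N : ℕ) (c : ℝ)
    (hc : c ≤ K * 2 ^ N * ((N:ℝ) + 1) ^ (d - 1)) :
    Real.sqrt c ≤ K * u ^ (P * N) * ((N:ℝ) + 1) ^ d := by
  have hN : (1:ℝ) ≤ (N:ℝ) + 1 := by linarith [Nat.cast_nonneg (α := ℝ) N]
  rw [Real.sqrt_le_left (by positivity)]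
  have h1 : (u ^ (P * N)) ^ 2 = 2 ^ N := by
    rw [← hu8, ← pow_mul, ← pow_mul]; congr 1; ring
  have h2 : ((N:ℝ) + 1) ^ (d - 1) ≤ (((N:ℝ) + 1) ^ d) ^ 2 := by
    rw [← pow_mul]
    exact pow_le_pow_right₀ hN (by omega)
  calc c ≤ K * 2 ^ N * ((N:ℝ) + 1) ^ (d - 1) := hc
    _ ≤ (K * K) * 2 ^ N * (((N:ℝ) + 1) ^ d) ^ 2 := by
        gcongr
        nlinarith
    _ = (K * u ^ (P * N) * ((N:ℝ) + 1) ^ d) ^ 2 := by
        rw [mul_pow, mul_pow, h1]; ring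

/-- term of the first sum -/
theorem num_upw_F (P : ℕ) (B : ℝ) (hB : 1 ≤ B) (d : ℕ) (hd : 1 ≤ d) (K t u : ℝ) (hK : 1 ≤ K) (ht : 0 < t) (htu : t * u = 1)
    (hu : 1 ≤ u) (hu8 : u ^ (2 * P) = 2) (n0 j : ℕ) (m M c : ℝ) (hc0 : 0 ≤ c)
    (hc : c ≤ K * 2 ^ (n0 + j) * (((n0 + j : ℕ):ℝ) + 1) ^ (d - 1))
    (hm : 8 * K * 2 ^ n0 * ((n0:ℝ) + 1) ^ (d - 1) ≤ m) (hM : m * t ^ (2 * j) / (2 * B) ≤ M)
    (hM0 : 0 < M) :
    Real.sqrt ((((n0 + j : ℕ):ℝ) + 1) * c / M) ≤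
      B * Real.sqrt ((n0:ℝ) + 1) * (((j:ℝ) + 1) ^ d * u ^ ((P + 1) * j)) := by
  have hB0 : 0 < B := by linarith
  have hn0 : (0:ℝ) < (n0:ℝ) + 1 := by positivity
  have hj : (0:ℝ) ≤ (j:ℝ) := Nat.cast_nonneg j
  rw [Real.sqrt_le_left (by positivity), mul_pow, mul_pow, Real.sq_sqrt hn0.le,
    div_le_iff₀ hM0]
  have hn : (((n0 + j : ℕ):ℝ) + 1) ≤ ((n0:ℝ) + 1) * ((j:ℝ) + 1) := by
    push_cast
    have : (0:ℝ) ≤ (n0:ℝ) * j := by positivity
    nlinarith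
  have h1 : (((n0 + j : ℕ):ℝ) + 1) * c ≤ K * 2 ^ (n0 + j) * (((n0:ℝ) + 1) * ((j:ℝ) + 1)) ^ d := by
    have e : (((n0 + j : ℕ):ℝ) + 1) ^ d = (((n0 + j : ℕ):ℝ) + 1) * (((n0 + j : ℕ):ℝ) + 1) ^ (d - 1) := by
      rw [← pow_succ']; congr 1; omega
    calc (((n0 + j : ℕ):ℝ) + 1) * c ≤ (((n0 + j : ℕ):ℝ) + 1) *
          (K * 2 ^ (n0 + j) * (((n0 + j : ℕ):ℝ) + 1) ^ (d - 1)) := by gcongr
      _ = K * 2 ^ (n0 + j) * (((n0 + j : ℕ):ℝ) + 1) ^ d := by rw [e]; ring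
      _ ≤ _ := by gcongr
  refine h1.trans ?_
  have h2 : u ^ ((P + 1) * j) * u ^ ((P + 1) * j) * t ^ (2 * j) = 2 ^ j := by
    rw [← hu8, ← pow_mul]
    have : u ^ ((P + 1) * j) * u ^ ((P + 1) * j) = u ^ (2 * P * j) * u ^ (2 * j) := by
      rw [← pow_add, ← pow_add]; congr 1; ring
    rw [this, mul_assoc, ← mul_pow, mul_comm u t, htu, one_pow, mul_one]
  have h3 : (((n0:ℝ) + 1)) ^ d = ((n0:ℝ) + 1) * ((n0:ℝ) + 1) ^ (d - 1) := by
    rw [← pow_succ']; congr 1; omega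
  have h4 : ((j:ℝ) + 1) ^ d ≤ (((j:ℝ) + 1) ^ d) ^ 2 := by
    have : (1:ℝ) ≤ ((j:ℝ) + 1) ^ d := one_le_pow₀ (by linarith)
    nlinarith
  have hmm : 0 ≤ m := le_trans (by positivity) hm
  calc K * 2 ^ (n0 + j) * (((n0:ℝ) + 1) * ((j:ℝ) + 1)) ^ d
      = (K * 2 ^ n0 * ((n0:ℝ) + 1) ^ (d - 1)) * (((n0:ℝ) + 1) * 2 ^ j * ((j:ℝ) + 1) ^ d) := by
        rw [mul_pow, h3, pow_add]; ring
    _ ≤ (m / 8) * (((n0:ℝ) + 1) * 2 ^ j * (((j:ℝ) + 1) ^ d) ^ 2) := by
        gcongr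
        linarith
    _ = (B / 4) * ((n0:ℝ) + 1) * ((((j:ℝ) + 1) ^ d * u ^ ((P + 1) * j)) ^ 2) * (m * t ^ (2 * j) / (2 * B)) := by
        rw [← h2]; field_simp; ring
    _ ≤ B ^ 2 * ((n0:ℝ) + 1) * ((((j:ℝ) + 1) ^ d * u ^ ((P + 1) * j)) ^ 2) * M := by
        have hm0 : 0 ≤ m * t ^ (2 * j) / (2 * B) := by positivity
        gcongr
        nlinarith

/-- final estimate -/
theorem num_upw_E (d : ℕ) (hd : 1 ≤ d) (r : ℝ) (hr : 1 / 2 < r) (K : ℝ) (hK : 1 ≤ K) (n0 m : ℕ)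
    (hm1 : 8 * K * 2 ^ n0 * ((n0:ℝ) + 1) ^ (d - 1) ≤ m)
    (hm2 : (m:ℝ) ≤ 8 * K * 2 ^ (n0 + 1) * ((n0:ℝ) + 2) ^ (d - 1)) :
    (2:ℝ) ^ (-(r * n0)) * Real.sqrt ((n0:ℝ) + 1) ≤
      ((16 * K) ^ r * (2:ℝ) ^ (((d:ℝ) - 1) * r + 1 / 2)) *
        ((m:ℝ) ^ (-r) * (Real.log m) ^ (((d:ℝ) - 1) * r + 1 / 2)) := by
  have hn0 : (0:ℝ) ≤ n0 := Nat.cast_nonneg n0
  have hd1 : (0:ℝ) ≤ (d:ℝ) - 1 := by
    have : (1:ℝ) ≤ d := by exact_mod_cast hd
    linarith
  have h1 : (1:ℝ) ≤ ((n0:ℝ) + 1) ^ (d - 1) := one_le_pow₀ (by linarith)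
  have hmp : (0:ℝ) < m := lt_of_lt_of_le (by positivity) hm1
  have h2 : (2:ℝ) ^ (n0 + 3) ≤ m := by
    refine le_trans ?_ hm1
    calc (2:ℝ) ^ (n0 + 3) = 8 * 1 * 2 ^ n0 * 1 := by rw [pow_add]; norm_num; ring
      _ ≤ _ := by gcongr
  have hlog : (n0:ℝ) + 2 ≤ 2 * Real.log m := by
    have h3 : ((n0 + 3 : ℕ) : ℝ) * Real.log 2 ≤ Real.log m := by
      rw [← Real.log_pow]
      exact Real.log_le_log (by positivity) h2
    have h4 := Real.log_two_gt_d9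
    push_cast at h3
    nlinarith
  have hlog0 : 0 < Real.log m := by linarith
  have h5 : (2:ℝ) ^ (-(r * n0)) = ((2:ℝ) ^ n0) ^ (-r) := by
    rw [← Real.rpow_natCast 2 n0, ← Real.rpow_mul (by norm_num)]
    congr 1; ring
  have h6 : (m:ℝ) / (16 * K * ((n0:ℝ) + 2) ^ (d - 1)) ≤ 2 ^ n0 := by
    rw [div_le_iff₀ (by positivity)]
    refine hm2.trans (le_of_eq ?_)
    rw [pow_succ]; ring
  have h7 : ((2:ℝ) ^ n0) ^ (-r) ≤ ((m:ℝ) / (16 * K * ((n0:ℝ) + 2) ^ (d - 1))) ^ (-r) :=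
    Real.rpow_le_rpow_of_nonpos (by positivity) h6 (by linarith)
  have h8 : ((m:ℝ) / (16 * K * ((n0:ℝ) + 2) ^ (d - 1))) ^ (-r) =
      (m:ℝ) ^ (-r) * ((16 * K) ^ r * (((n0:ℝ) + 2) ^ (((d:ℝ) - 1) * r))) := by
    rw [Real.div_rpow hmp.le (by positivity), Real.rpow_neg (x := 16 * K * ((n0:ℝ) + 2) ^ (d - 1))
      (by positivity), div_inv_eq_mul, Real.mul_rpow (by positivity) (by positivity)]
    congr 2
    rw [← Real.rpow_natCast ((n0:ℝ) + 2) (d - 1), ← Real.rpow_mul (by positivity)]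
    congr 1
    rw [Nat.cast_sub hd]
    push_cast
    ring
  have h9 : ((n0:ℝ) + 2) ^ (((d:ℝ) - 1) * r) ≤ (2 * Real.log m) ^ (((d:ℝ) - 1) * r) :=
    Real.rpow_le_rpow (by positivity) hlog (by positivity)
  have h10 : Real.sqrt ((n0:ℝ) + 1) ≤ (2 * Real.log m) ^ (1 / 2 : ℝ) := by
    rw [← Real.sqrt_eq_rpow]
    exact Real.sqrt_le_sqrt (by linarith)
  have h11 : (2 * Real.log m) ^ (((d:ℝ) - 1) * r) * (2 * Real.log m) ^ (1 / 2 : ℝ) =
      (2:ℝ) ^ (((d:ℝ) - 1) * r + 1 / 2) * (Real.log m) ^ (((d:ℝ) - 1) * r + 1 / 2) := by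
    rw [← Real.rpow_add (by positivity), Real.mul_rpow (by norm_num) hlog0.le]
  rw [h5]
  calc ((2:ℝ) ^ n0) ^ (-r) * Real.sqrt ((n0:ℝ) + 1)
      ≤ ((m:ℝ) ^ (-r) * ((16 * K) ^ r * ((2 * Real.log m) ^ (((d:ℝ) - 1) * r)))) *
        (2 * Real.log m) ^ (1 / 2 : ℝ) := by
        refine mul_le_mul ?_ h10 (Real.sqrt_nonneg _) (by positivity)
        refine h7.trans ?_
        rw [h8]
        gcongr
    _ = ((m:ℝ) ^ (-r) * (16 * K) ^ r) * ((2 * Real.log m) ^ (((d:ℝ) - 1) * r) *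
        (2 * Real.log m) ^ (1 / 2 : ℝ)) := by ring
    _ = _ := by rw [h11]; ring

set_option maxHeartbeats 1000000 in
theorem num_up2 (d : ℕ) (hd : 1 ≤ d) (r : ℝ) (hr : 1/2 < r) : ∃ C : ℝ, 0 < C ∧ ∀ m : ℕ, 2 ≤ m →
    ∃ (n0 n1 : ℕ) (M : ℕ → ℕ), n0 ≤ n1 ∧ (∀ n, 1 ≤ M n) ∧
      (∑ n ∈ Finset.range n0, 2 * (layer d n).card) + ∑ n ∈ Finset.Ico n0 n1, M n ≤ m ∧
      Summable (fun n : ℕ => (2:ℝ)^(-(r * ((n + n1 : ℕ) : ℝ))) * Real.sqrt (layer d (n + n1)).card) ∧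
      (∑ n ∈ Finset.Ico n0 n1, (2:ℝ)^(-(r * n)) * Real.sqrt (((n:ℝ)+1) * (layer d n).card / M n)) +
        ∑' n : ℕ, (2:ℝ)^(-(r * ((n + n1 : ℕ) : ℝ))) * Real.sqrt (layer d (n + n1)).card
        ≤ C * Rk d r m := by
  obtain ⟨K, hK, hcard⟩ : ∃ K : ℝ, 1 ≤ K ∧ ∀ n : ℕ,
      ((layer d n).card : ℝ) ≤ K * 2 ^ n * ((n:ℝ) + 1) ^ (d - 1) := by
    obtain ⟨C, hC, h⟩ := card_layer_le d hd
    refine ⟨C + 1, by linarith, fun n => (h n).trans ?_⟩
    have : (0:ℝ) ≤ 2 ^ n * ((n:ℝ) + 1) ^ (d - 1) := by positivity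
    nlinarith
  obtain ⟨P, hP⟩ := exists_nat_ge (3 / (2 * r - 1))
  have hr0 : 0 < 2 * r - 1 := by linarith
  have hP3 : 3 ≤ (P:ℝ) * (2 * r - 1) := by rwa [div_le_iff₀ hr0] at hP
  have hP1 : 1 ≤ P := by
    by_contra h
    have : P = 0 := by omega
    rw [this] at hP3; norm_num at hP3
  have hP1' : (1:ℝ) ≤ P := by exact_mod_cast hP1
  obtain ⟨t, ht0, ht8, htP⟩ : ∃ t : ℝ, 0 < t ∧ t ^ (2 * P) = 1 / 2 ∧ (2:ℝ) ^ (-r) ≤ t ^ (P + 3) := by
    refine ⟨(2:ℝ) ^ (-(1 / (2 * (P:ℝ))) : ℝ), by positivity, ?_, ?_⟩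
    · rw [← Real.rpow_natCast, ← Real.rpow_mul (by norm_num)]
      have : -(1 / (2 * (P:ℝ))) * ((2 * P : ℕ) : ℝ) = -1 := by push_cast; field_simp
      rw [this, Real.rpow_neg_one]; norm_num
    · rw [← Real.rpow_natCast, ← Real.rpow_mul (by norm_num)]
      apply Real.rpow_le_rpow_of_exponent_le (by norm_num)
      push_cast
      rw [neg_mul, neg_le_neg_iff, div_mul_eq_mul_div, div_le_iff₀ (by positivity)]
      nlinarith
  have ht1 : t < 1 := by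
    by_contra h
    push Not at h
    have := one_le_pow₀ h (n := 2 * P)
    rw [ht8] at this
    norm_num at this
  have ht2 : t ^ 2 < 1 := by nlinarith
  obtain ⟨B, hBd⟩ : ∃ B : ℝ, B = 32 + 4 / (1 - t ^ 2) := ⟨_, rfl⟩
  have hBt : 0 < 4 / (1 - t ^ 2) := by apply div_pos (by norm_num); linarith
  have hB32 : 32 ≤ B := by rw [hBd]; linarith
  have hB0 : 0 < B := by linarith
  have hB4 : 4 ≤ B * (1 - t ^ 2) := by
    have h1 : 4 / (1 - t ^ 2) * (1 - t ^ 2) = 4 := by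
      apply div_mul_cancel₀; linarith
    have h2 : 0 < 1 - t ^ 2 := by linarith
    rw [hBd, add_mul, h1]; nlinarith
  obtain ⟨u, hud⟩ : ∃ u : ℝ, u = t⁻¹ := ⟨_, rfl⟩
  have hu0 : 0 < u := by rw [hud]; positivity
  have htu : t * u = 1 := by rw [hud]; exact mul_inv_cancel₀ ht0.ne'
  have hu1 : 1 ≤ u := by rw [hud]; exact (one_le_inv₀ ht0).2 ht1.le
  have hu8 : u ^ (2 * P) = 2 := by rw [hud, inv_pow, ht8]; norm_num
  obtain ⟨s, hs⟩ : ∃ s : ℝ, s = (2:ℝ) ^ (-r) := ⟨_, rfl⟩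
  have hs0 : 0 < s := by rw [hs]; positivity
  have hst : s ≤ t ^ (P + 3) := by rw [hs]; exact htP
  have hsn : ∀ n : ℕ, (2:ℝ) ^ (-(r * n)) = s ^ n := by
    intro n
    rw [hs, ← Real.rpow_natCast, ← Real.rpow_mul (by norm_num)]
    congr 1
    ring
  obtain ⟨g, hg⟩ : ∃ g : ℕ → ℝ, g = fun n : ℕ => ((n:ℝ) + 1) ^ d * t ^ n := ⟨_, rfl⟩
  have hg0 : ∀ n, 0 ≤ g n := fun n => by rw [hg]; positivity
  have hgs : Summable g := by rw [hg]; exact num_upw_summ d t ht0 ht1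
  obtain ⟨G, hG⟩ : ∃ G : ℝ, G = ∑' n, g n := ⟨_, rfl⟩
  have hG0 : 0 ≤ G := by rw [hG]; exact tsum_nonneg hg0
  -- the tail terms
  have htail : ∀ N : ℕ, s ^ N * Real.sqrt (layer d N).card ≤ K * g N := by
    intro N
    have h1 := num_upw_T P d K u hK hu1 hu8 N _ (hcard N)
    calc s ^ N * Real.sqrt (layer d N).card ≤ (t ^ (P + 3)) ^ N * (K * u ^ (P * N) * ((N:ℝ) + 1) ^ d) := by
          gcongr
      _ = K * (((N:ℝ) + 1) ^ d * t ^ (3 * N)) * ((t * u) ^ (P * N)) := by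
          rw [mul_pow, ← pow_mul, show (P + 3) * N = 3 * N + P * N by ring, pow_add]; ring
      _ ≤ K * g N := by
          rw [htu, one_pow, mul_one, hg]
          have : t ^ (3 * N) ≤ t ^ N := pow_le_pow_of_le_one ht0.le ht1.le (by omega)
          simp only
          gcongr
  have hsumm : ∀ n1 : ℕ, Summable (fun n : ℕ => (2:ℝ)^(-(r * ((n + n1 : ℕ) : ℝ))) *
      Real.sqrt (layer d (n + n1)).card) := by
    intro n1
    refine Summable.of_nonneg_of_le (fun n => by positivity) (fun n => ?_)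
      ((((summable_nat_add_iff n1).2 hgs)).mul_left K)
    rw [hsn]
    exact htail (n + n1)
  have he0 : (0:ℝ) ≤ ((d:ℝ) - 1) * r + 1 / 2 := by
    have : (1:ℝ) ≤ d := by exact_mod_cast hd
    have : 0 ≤ ((d:ℝ) - 1) * r := mul_nonneg (by linarith) (by linarith)
    linarith
  have hl2 : 0 < Real.log 2 := Real.log_pos (by norm_num)
  obtain ⟨CA, hCA⟩ : ∃ CA : ℝ, CA = (K * G) / ((8 * K) ^ (-r) *
    (Real.log 2) ^ (((d:ℝ) - 1) * r + 1 / 2)) := ⟨_, rfl⟩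
  obtain ⟨CB, hCB⟩ : ∃ CB : ℝ, CB = (B + B * K) * G * ((16 * K) ^ r *
    (2:ℝ) ^ (((d:ℝ) - 1) * r + 1 / 2)) := ⟨_, rfl⟩
  have hCA0 : 0 ≤ CA := by rw [hCA]; positivity
  have hCB0 : 0 ≤ CB := by rw [hCB]; positivity
  refine ⟨CA + CB + 1, by linarith, fun m hm => ?_⟩
  have hmR : (2:ℝ) ≤ m := by exact_mod_cast hm
  have hlm : 0 < Real.log m := Real.log_pos (by linarith)
  have hX0 : 0 ≤ (m:ℝ) ^ (-r) * (Real.log m) ^ (((d:ℝ) - 1) * r + 1 / 2) := by positivity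
  by_cases hsmall : (m:ℝ) < 8 * K
  · refine ⟨0, 0, fun _ => 1, le_rfl, fun _ => le_rfl, by simp, hsumm 0, ?_⟩
    simp only [Finset.Ico_self, Finset.sum_empty, zero_add]
    have h1 : ∑' n : ℕ, (2:ℝ)^(-(r * ((n + 0 : ℕ) : ℝ))) * Real.sqrt (layer d (n + 0)).card ≤ K * G := by
      rw [hG, ← tsum_mul_left]
      refine (hsumm 0).tsum_le_tsum (fun n => ?_) (hgs.mul_left K)
      rw [hsn]
      exact htail (n + 0)
    have h2 : K * G ≤ CA * ((m:ℝ) ^ (-r) * (Real.log m) ^ (((d:ℝ) - 1) * r + 1 / 2)) := by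
      have h3 : (8 * K) ^ (-r) ≤ (m:ℝ) ^ (-r) :=
        Real.rpow_le_rpow_of_nonpos (by linarith) hsmall.le (by linarith)
      have h4 : (Real.log 2) ^ (((d:ℝ) - 1) * r + 1 / 2) ≤ (Real.log m) ^ (((d:ℝ) - 1) * r + 1 / 2) :=
        Real.rpow_le_rpow hl2.le (Real.log_le_log (by norm_num) hmR) he0
      have h5 : 0 < (8 * K) ^ (-r) * (Real.log 2) ^ (((d:ℝ) - 1) * r + 1 / 2) := by positivity
      calc K * G = CA * ((8 * K) ^ (-r) * (Real.log 2) ^ (((d:ℝ) - 1) * r + 1 / 2)) := by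
            rw [hCA]; field_simp
        _ ≤ _ := by gcongr
    calc _ ≤ K * G := h1
      _ ≤ CA * ((m:ℝ) ^ (-r) * (Real.log m) ^ (((d:ℝ) - 1) * r + 1 / 2)) := h2
      _ ≤ (CA + CB + 1) * ((m:ℝ) ^ (-r) * (Real.log m) ^ (((d:ℝ) - 1) * r + 1 / 2)) := by
          apply mul_le_mul_of_nonneg_right _ hX0
          linarith
      _ = _ := by rw [Rk]
  · push Not at hsmall
    -- choice of n0
    obtain ⟨n0, hn0a, hn0b⟩ : ∃ n0 : ℕ, 8 * K * 2 ^ n0 * ((n0:ℝ) + 1) ^ (d - 1) ≤ m ∧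
        (m:ℝ) ≤ 8 * K * 2 ^ (n0 + 1) * ((n0:ℝ) + 2) ^ (d - 1) := by
      have hex : ∃ n : ℕ, (m:ℝ) < 8 * K * 2 ^ n * ((n:ℝ) + 1) ^ (d - 1) := by
        refine ⟨m, ?_⟩
        have h1 : (m:ℝ) < 2 ^ m := by exact_mod_cast Nat.lt_two_pow_self
        have h2 : (1:ℝ) ≤ ((m:ℝ) + 1) ^ (d - 1) := one_le_pow₀ (by linarith)
        calc (m:ℝ) < 2 ^ m := h1
          _ = 1 * 2 ^ m * 1 := by ring
          _ ≤ _ := by
            gcongr
            linarith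
      have hP := Nat.find_spec hex
      have hne : Nat.find hex ≠ 0 := by
        intro h0
        rw [h0] at hP
        simp only [pow_zero, Nat.cast_zero, zero_add, one_pow, mul_one] at hP
        linarith
      obtain ⟨n0, hn0⟩ := Nat.exists_eq_succ_of_ne_zero hne
      refine ⟨n0, ?_, ?_⟩
      · have := Nat.find_min hex (show n0 < Nat.find hex by omega)
        push Not at this
        exact this
      · rw [hn0] at hP
        push_cast at hP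
        have e : (n0:ℝ) + 1 + 1 = n0 + 2 := by ring
        rw [e] at hP
        exact hP.le
    -- choice of L
    have hexL : ∃ j : ℕ, (m:ℝ) * t ^ (2 * j) / B < 1 := by
      have h1 : Filter.Tendsto (fun j : ℕ => (t ^ 2) ^ j) Filter.atTop (nhds 0) :=
        tendsto_pow_atTop_nhds_zero_of_lt_one (by positivity) ht2
      have h2 : ∀ᶠ j : ℕ in Filter.atTop, (t ^ 2) ^ j < B / m :=
        h1.eventually (gt_mem_nhds (by positivity))
      obtain ⟨j, hj⟩ := h2.exists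
      refine ⟨j, ?_⟩
      rw [← pow_mul, lt_div_iff₀ (by linarith)] at hj
      rw [div_lt_one hB0]
      linarith
    obtain ⟨L, hL1, hL2⟩ : ∃ L : ℕ, (m:ℝ) * t ^ (2 * L) / B < 1 ∧
        ∀ j < L, 1 ≤ (m:ℝ) * t ^ (2 * j) / B :=
      ⟨Nat.find hexL, Nat.find_spec hexL, fun j hj => by
        have := Nat.find_min hexL hj
        push Not at this
        exact this⟩
    obtain ⟨M, hM⟩ : ∃ M : ℕ → ℕ, M = fun n => max 1 ⌊(m:ℝ) * t ^ (2 * (n - n0)) / B⌋₊ := ⟨_, rfl⟩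
    have hM1 : ∀ n, 1 ≤ M n := fun n => by rw [hM]; exact le_max_left _ _
    have hMfl : ∀ j < L, M (n0 + j) = ⌊(m:ℝ) * t ^ (2 * j) / B⌋₊ := by
      intro j hj
      rw [hM]
      simp only [Nat.add_sub_cancel_left]
      apply max_eq_right
      exact Nat.le_floor (by exact_mod_cast hL2 j hj)
    have hMup : ∀ j < L, (M (n0 + j) : ℝ) ≤ (m:ℝ) * t ^ (2 * j) / B := by
      intro j hj
      rw [hMfl j hj]
      exact Nat.floor_le (by positivity)
    have hMlo : ∀ j < L, (m:ℝ) * t ^ (2 * j) / (2 * B) ≤ M (n0 + j) := by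
      intro j hj
      have h1 : (1:ℝ) ≤ M (n0 + j) := by exact_mod_cast hM1 (n0 + j)
      have h2 : (m:ℝ) * t ^ (2 * j) / B < M (n0 + j) + 1 := by
        rw [hMfl j hj]
        exact Nat.lt_floor_add_one _
      have h3 : (m:ℝ) * t ^ (2 * j) / (2 * B) = (m:ℝ) * t ^ (2 * j) / B / 2 := by field_simp
      rw [h3]
      linarith
    have hIco : Finset.Ico n0 (n0 + L) = (Finset.range L).image (fun j => n0 + j) := by
      ext x
      simp only [Finset.mem_Ico, Finset.mem_image, Finset.mem_range]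
      constructor
      · intro h
        exact ⟨x - n0, by omega, by omega⟩
      · rintro ⟨j, hj, rfl⟩
        omega
    have hinj : Set.InjOn (fun j => n0 + j) (Finset.range L : Set ℕ) := by
      intro a _ b _ h
      simpa using h
    refine ⟨n0, n0 + L, M, by omega, hM1, ?_, hsumm _, ?_⟩
    · have h1 : (∑ n ∈ Finset.range n0, 2 * ((layer d n).card : ℝ)) ≤ m / 4 := by
        have h2 : ∀ n ∈ Finset.range n0, 2 * ((layer d n).card : ℝ) ≤
            (2 * K * ((n0:ℝ) + 1) ^ (d - 1)) * 2 ^ n := by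
          intro n hn
          have hn' : (n:ℝ) ≤ n0 := by exact_mod_cast (Finset.mem_range.1 hn).le
          calc 2 * ((layer d n).card : ℝ) ≤ 2 * (K * 2 ^ n * ((n:ℝ) + 1) ^ (d - 1)) := by
                linarith [hcard n]
            _ ≤ 2 * (K * 2 ^ n * ((n0:ℝ) + 1) ^ (d - 1)) := by gcongr
            _ = _ := by ring
        have h3 : ∑ n ∈ Finset.range n0, (2:ℝ) ^ n ≤ 2 ^ n0 := by
          rw [geom_sum_eq (by norm_num)]
          norm_num
        calc _ ≤ ∑ n ∈ Finset.range n0, (2 * K * ((n0:ℝ) + 1) ^ (d - 1)) * 2 ^ n :=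
              Finset.sum_le_sum h2
          _ = (2 * K * ((n0:ℝ) + 1) ^ (d - 1)) * ∑ n ∈ Finset.range n0, (2:ℝ) ^ n := by
              rw [Finset.mul_sum]
          _ ≤ (2 * K * ((n0:ℝ) + 1) ^ (d - 1)) * 2 ^ n0 := by gcongr
          _ ≤ m / 4 := by linarith
      have h4 : (∑ n ∈ Finset.Ico n0 (n0 + L), (M n : ℝ)) ≤ m / 4 := by
        rw [hIco, Finset.sum_image hinj]
        have h5 : ∑ j ∈ Finset.range L, (t ^ 2) ^ j ≤ B / 4 := by
          have h6 : (∑ j ∈ Finset.range L, (t ^ 2) ^ j) * (1 - t ^ 2) = 1 - (t ^ 2) ^ L :=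
            geom_sum_mul_neg (t ^ 2) L
          have h7 : 0 ≤ (t ^ 2) ^ L := by positivity
          have h8 : 0 ≤ ∑ j ∈ Finset.range L, (t ^ 2) ^ j := Finset.sum_nonneg (fun j _ => by positivity)
          have h9 : 0 < 1 - t ^ 2 := by linarith
          refine le_of_mul_le_mul_right (a := 1 - t ^ 2) ?_ h9
          rw [h6]; linarith
        calc ∑ j ∈ Finset.range L, (M (n0 + j) : ℝ) ≤ ∑ j ∈ Finset.range L, ((m:ℝ) / B) * (t ^ 2) ^ j := by
              apply Finset.sum_le_sum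
              intro j hj
              refine (hMup j (Finset.mem_range.1 hj)).trans (le_of_eq ?_)
              rw [← pow_mul]; ring
          _ = ((m:ℝ) / B) * ∑ j ∈ Finset.range L, (t ^ 2) ^ j := by rw [Finset.mul_sum]
          _ ≤ ((m:ℝ) / B) * (B / 4) := by gcongr
          _ = m / 4 := by field_simp
      have h9 : ((∑ n ∈ Finset.range n0, 2 * (layer d n).card + ∑ n ∈ Finset.Ico n0 (n0 + L), M n : ℕ) : ℝ)
          ≤ (m : ℝ) := by
        push_cast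
        linarith
      exact_mod_cast h9
    · have hfirst : (∑ n ∈ Finset.Ico n0 (n0 + L), (2:ℝ)^(-(r * n)) *
          Real.sqrt (((n:ℝ)+1) * (layer d n).card / M n)) ≤ B * G * (s ^ n0 * Real.sqrt ((n0:ℝ) + 1)) := by
        rw [hIco, Finset.sum_image hinj]
        have h1 : ∀ j ∈ Finset.range L, (2:ℝ)^(-(r * ((n0 + j : ℕ) : ℝ))) *
            Real.sqrt ((((n0 + j : ℕ):ℝ)+1) * (layer d (n0 + j)).card / M (n0 + j)) ≤
            (B * (s ^ n0 * Real.sqrt ((n0:ℝ) + 1))) * g j := by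
          intro j hj
          have hj' := Finset.mem_range.1 hj
          rw [hsn]
          have h2 := num_upw_F P B (by linarith) d hd K t u hK ht0 htu hu1 hu8 n0 j m (M (n0 + j)) _
            (Nat.cast_nonneg _) (hcard (n0 + j)) hn0a (hMlo j hj')
            (by exact_mod_cast hM1 (n0 + j))
          have h3 : s ^ j * u ^ ((P + 1) * j) ≤ t ^ j := by
            calc s ^ j * u ^ ((P + 1) * j) ≤ (t ^ (P + 3)) ^ j * u ^ ((P + 1) * j) := by gcongr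
              _ = t ^ (2 * j) * (t * u) ^ ((P + 1) * j) := by
                rw [mul_pow, ← pow_mul, show (P + 3) * j = 2 * j + (P + 1) * j by ring, pow_add]; ring
              _ = t ^ (2 * j) := by rw [htu, one_pow, mul_one]
              _ ≤ t ^ j := pow_le_pow_of_le_one ht0.le ht1.le (by omega)
          calc _ ≤ s ^ (n0 + j) * (B * Real.sqrt ((n0:ℝ) + 1) * (((j:ℝ) + 1) ^ d * u ^ ((P + 1) * j))) := by
                gcongr
            _ = (B * (s ^ n0 * Real.sqrt ((n0:ℝ) + 1))) * (((j:ℝ) + 1) ^ d * (s ^ j * u ^ ((P + 1) * j))) := by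
                rw [pow_add]; ring
            _ ≤ (B * (s ^ n0 * Real.sqrt ((n0:ℝ) + 1))) * (((j:ℝ) + 1) ^ d * t ^ j) := by gcongr
            _ = _ := by rw [hg]
        calc _ ≤ ∑ j ∈ Finset.range L, (B * (s ^ n0 * Real.sqrt ((n0:ℝ) + 1))) * g j :=
              Finset.sum_le_sum h1
          _ = (B * (s ^ n0 * Real.sqrt ((n0:ℝ) + 1))) * ∑ j ∈ Finset.range L, g j := by
              rw [Finset.mul_sum]
          _ ≤ (B * (s ^ n0 * Real.sqrt ((n0:ℝ) + 1))) * G := by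
              rw [hG]
              gcongr
              exact hgs.sum_le_tsum _ (fun j _ => hg0 j)
          _ = _ := by ring
      have hLt : t ^ (2 * L) ≤ B * t ^ (2 * P * n0) := by
        have h1 : (m:ℝ) * t ^ (2 * L) < B := by rwa [div_lt_one hB0] at hL1
        have h2 : 8 * (2:ℝ) ^ n0 ≤ m := by
          refine le_trans ?_ hn0a
          have : (1:ℝ) ≤ ((n0:ℝ) + 1) ^ (d - 1) :=
            one_le_pow₀ (by linarith [Nat.cast_nonneg (α := ℝ) n0])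
          calc 8 * (2:ℝ) ^ n0 = 8 * 1 * 2 ^ n0 * 1 := by ring
            _ ≤ _ := by gcongr
        have h3 : (2:ℝ) ^ n0 * t ^ (2 * P * n0) = 1 := by
          rw [pow_mul, ← mul_pow, ht8]; norm_num
        have h4 : 8 * (2:ℝ) ^ n0 * t ^ (2 * L) ≤ B :=
          (mul_le_mul_of_nonneg_right h2 (by positivity)).trans h1.le
        have h5 : 0 < t ^ (2 * P * n0) := by positivity
        calc t ^ (2 * L) = ((2:ℝ) ^ n0 * t ^ (2 * P * n0)) * t ^ (2 * L) := by rw [h3, one_mul]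
          _ = (8 * (2:ℝ) ^ n0 * t ^ (2 * L)) * t ^ (2 * P * n0) / 8 := by ring
          _ ≤ B * t ^ (2 * P * n0) / 8 := by gcongr
          _ ≤ _ := by
              have : 0 ≤ B * t ^ (2 * P * n0) := by positivity
              linarith
      have htail2 : ∑' n : ℕ, (2:ℝ)^(-(r * ((n + (n0 + L) : ℕ) : ℝ))) *
          Real.sqrt (layer d (n + (n0 + L))).card ≤ B * K * G * (s ^ n0 * Real.sqrt ((n0:ℝ) + 1)) := by
        have h1 : ∀ i : ℕ, (2:ℝ)^(-(r * ((i + (n0 + L) : ℕ) : ℝ))) *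
            Real.sqrt (layer d (i + (n0 + L))).card ≤ (B * K * s ^ n0) * g (i + (n0 + L)) := by
          intro i
          rw [hsn]
          have h2 := num_upw_T P d K u hK hu1 hu8 (i + (n0 + L)) _ (hcard (i + (n0 + L)))
          have h3 : s ^ (i + L) * u ^ (P * (i + (n0 + L))) ≤ B * t ^ (i + (n0 + L)) := by
            calc s ^ (i + L) * u ^ (P * (i + (n0 + L))) ≤ (t ^ (P + 3)) ^ (i + L) * u ^ (P * (i + (n0 + L))) := by
                  gcongr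
              _ = t ^ (3 * i + L) * t ^ (2 * L) * (t * u) ^ (P * (i + L)) * u ^ (P * n0) := by
                  rw [mul_pow, ← pow_mul, show (P + 3) * (i + L) = (3 * i + L) + 2 * L + P * (i + L) by ring,
                    show P * (i + (n0 + L)) = P * (i + L) + P * n0 by ring, pow_add, pow_add, pow_add]
                  ring
              _ = t ^ (3 * i + L) * t ^ (2 * L) * u ^ (P * n0) := by rw [htu, one_pow, mul_one]
              _ ≤ t ^ (3 * i + L) * (B * t ^ (2 * P * n0)) * u ^ (P * n0) := by gcongr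
              _ = B * t ^ (3 * i + L + P * n0) * (t * u) ^ (P * n0) := by
                  rw [mul_pow, show 2 * P * n0 = P * n0 + P * n0 by ring, pow_add, pow_add (t) (3 * i + L)]
                  ring
              _ = B * t ^ (3 * i + L + P * n0) := by rw [htu, one_pow, mul_one]
              _ ≤ B * t ^ (i + (n0 + L)) := by
                  have := pow_le_pow_of_le_one ht0.le ht1.le
                    (show i + (n0 + L) ≤ 3 * i + L + P * n0 by nlinarith)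
                  exact mul_le_mul_of_nonneg_left this hB0.le
          calc _ ≤ s ^ (i + (n0 + L)) * (K * u ^ (P * (i + (n0 + L))) *
                (((i + (n0 + L) : ℕ):ℝ) + 1) ^ d) := by gcongr
            _ = (K * s ^ n0) * ((((i + (n0 + L) : ℕ):ℝ) + 1) ^ d *
                (s ^ (i + L) * u ^ (P * (i + (n0 + L))))) := by
                rw [show i + (n0 + L) = n0 + (i + L) by ring, pow_add s]; ring
            _ ≤ (K * s ^ n0) * ((((i + (n0 + L) : ℕ):ℝ) + 1) ^ d * (B * t ^ (i + (n0 + L)))) := by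
                gcongr
            _ = _ := by rw [hg]; ring
        have hgs' := (summable_nat_add_iff (n0 + L)).2 hgs
        have h4 : ∑' i : ℕ, g (i + (n0 + L)) ≤ G := by
          rw [hG, ← hgs.sum_add_tsum_nat_add (n0 + L)]
          have : 0 ≤ ∑ i ∈ Finset.range (n0 + L), g i := Finset.sum_nonneg (fun i _ => hg0 i)
          linarith
        have h5 : (1:ℝ) ≤ Real.sqrt ((n0:ℝ) + 1) := by
          rw [Real.one_le_sqrt]
          linarith [Nat.cast_nonneg (α := ℝ) n0]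
        calc _ ≤ ∑' i : ℕ, (B * K * s ^ n0) * g (i + (n0 + L)) :=
              (hsumm _).tsum_le_tsum h1 (hgs'.mul_left _)
          _ = (B * K * s ^ n0) * ∑' i : ℕ, g (i + (n0 + L)) := tsum_mul_left
          _ ≤ (B * K * s ^ n0) * G := by gcongr
          _ = B * K * G * (s ^ n0 * 1) := by ring
          _ ≤ _ := by gcongr
      have hE := num_upw_E d hd r hr K hK n0 m hn0a hn0b
      rw [hsn] at hE
      calc _ ≤ B * G * (s ^ n0 * Real.sqrt ((n0:ℝ) + 1)) + B * K * G * (s ^ n0 * Real.sqrt ((n0:ℝ) + 1)) :=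
            add_le_add hfirst htail2
        _ = (B + B * K) * G * (s ^ n0 * Real.sqrt ((n0:ℝ) + 1)) := by ring
        _ ≤ (B + B * K) * G * (((16 * K) ^ r * (2:ℝ) ^ (((d:ℝ) - 1) * r + 1 / 2)) *
            ((m:ℝ) ^ (-r) * (Real.log m) ^ (((d:ℝ) - 1) * r + 1 / 2))) := by gcongr
        _ = CB * ((m:ℝ) ^ (-r) * (Real.log m) ^ (((d:ℝ) - 1) * r + 1 / 2)) := by rw [hCB]; ring
        _ ≤ (CA + CB + 1) * ((m:ℝ) ^ (-r) * (Real.log m) ^ (((d:ℝ) - 1) * r + 1 / 2)) := by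
            apply mul_le_mul_of_nonneg_right _ hX0
            linarith
        _ = _ := by rw [Rk]


end Sol_KX_num_up2

alias num_up2 := Sol_KX_num_up2.num_up2

end HypVol
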