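import Pool.Agent.EntX.Defs
import Pool.Agent.HypVol.DefsW
import Pool.Agent.HypVol.L_layer_approx
import Pool.Agent.KX.L_wf_split
import Pool.Agent.KX.L_num_up2
import Pool.Agent.HypVol.L_TP_prob
import Pool.Agent.KX.L_ML_mem
open MeasureTheory Real ProbabilityTheory
open scoped ENNReal BigOperators

namespace HypVol
namespace Sol_KX_width_up2









/-- evaluation of `poly` as a real linear map -/
noncomputable def wPL {d n : ℕ} (x : Fin d → ℝ) : ((layer d n) × Fin 2 → ℝ) →ₗ[ℝ] ℂ where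
  toFun a := poly a x
  map_add' a b := by
    unfold poly
    rw [← Finset.sum_add_distrib]
    refine Finset.sum_congr rfl fun k _ => ?_
    simp only [Pi.add_apply]
    push_cast
    ring
  map_smul' c a := by
    unfold poly
    simp only [RingHom.id_apply]
    rw [Finset.smul_sum]
    refine Finset.sum_congr rfl fun k _ => ?_
    simp only [Pi.smul_apply, smul_eq_mul, Complex.real_smul]
    push_cast
    ring

theorem wPL_apply {d n : ℕ} (x : Fin d → ℝ) (a : (layer d n) × Fin 2 → ℝ) : wPL x a = poly a x := rfl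

/-- real linear map `ℂ → 𝕜` inverse to `toC` -/
noncomputable def wio (𝕜 : Type) [RCLike 𝕜] : ℂ →ₗ[ℝ] 𝕜 where
  toFun z := ((z.re : ℝ) : 𝕜) + ((z.im : ℝ) : 𝕜) * RCLike.I
  map_add' a b := by
    simp only [Complex.add_re, Complex.add_im]
    push_cast
    ring
  map_smul' c a := by
    rw [RingHom.id_apply, Complex.smul_re, Complex.smul_im, smul_eq_mul, smul_eq_mul,
      RCLike.real_smul_eq_coe_mul]
    push_cast
    ring

theorem wio_apply (𝕜 : Type) [RCLike 𝕜] (z : ℂ) :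
    wio 𝕜 z = ((z.re : ℝ) : 𝕜) + ((z.im : ℝ) : 𝕜) * RCLike.I := rfl

theorem wio_toC (𝕜 : Type) [RCLike 𝕜] (z : 𝕜) : wio 𝕜 (toC z) = z := by
  rw [wio_apply, toC]
  simp only [Complex.add_re, Complex.ofReal_re, Complex.mul_re, Complex.I_re, Complex.I_im,
    Complex.ofReal_im, Complex.add_im, Complex.mul_im, mul_zero, mul_one, sub_zero, add_zero, zero_add]
  exact RCLike.re_add_im z

theorem wio_norm (𝕜 : Type) [RCLike 𝕜] (z : ℂ) : ‖wio 𝕜 z‖ ≤ 2 * ‖z‖ := by
  rw [wio_apply]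
  have hI : ‖(RCLike.I : 𝕜)‖ ≤ 1 := by
    rcases RCLike.I_eq_zero_or_im_I_eq_one (K := 𝕜) with h | h
    · rw [h]; simp
    · rw [RCLike.norm_I_of_ne_zero]
      intro h0
      rw [h0] at h
      simp at h
  calc ‖((z.re : ℝ) : 𝕜) + ((z.im : ℝ) : 𝕜) * RCLike.I‖
      ≤ ‖((z.re : ℝ) : 𝕜)‖ + ‖((z.im : ℝ) : 𝕜) * RCLike.I‖ := norm_add_le _ _
    _ = |z.re| + |z.im| * ‖(RCLike.I : 𝕜)‖ := by rw [norm_mul, RCLike.norm_ofReal, RCLike.norm_ofReal]
    _ ≤ |z.re| + |z.im| * 1 := by gcongr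
    _ ≤ 2 * ‖z‖ := by
      have h1 := Complex.abs_re_le_norm z
      have h2 := Complex.abs_im_le_norm z
      linarith

theorem wio_cont (𝕜 : Type) [RCLike 𝕜] : Continuous (wio 𝕜) := by
  have : (wio 𝕜 : ℂ → 𝕜) = fun z => ((z.re : ℝ) : 𝕜) + ((z.im : ℝ) : 𝕜) * RCLike.I := rfl
  rw [this]
  exact (RCLike.continuous_ofReal.comp Complex.continuous_re).add
    ((RCLike.continuous_ofReal.comp Complex.continuous_im).mul continuous_const)

theorem wpoly_bd {d n : ℕ} (a : (layer d n) × Fin 2 → ℝ) (x : Fin d → ℝ) :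
    ‖poly a x‖ ≤ 2 * Real.sqrt (layer d n).card * Real.sqrt (∑ i, a i ^ 2) := by
  have h1 : ‖poly a x‖ ≤ ∑ i, |a i| := by
    unfold poly
    refine (norm_sum_le _ _).trans ?_
    rw [Fintype.sum_prod_type]
    refine Finset.sum_le_sum fun k _ => ?_
    rw [norm_mul]
    have he : ‖Complex.exp (Complex.I * ((∑ j, (k.1 j : ℝ) * x j : ℝ) : ℂ))‖ = 1 := by
      rw [mul_comm]
      exact Complex.norm_exp_ofReal_mul_I _
    rw [he, mul_one, Fin.sum_univ_two]
    refine (norm_add_le _ _).trans ?_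
    rw [norm_mul, Complex.norm_I, mul_one, Complex.norm_real, Complex.norm_real]
    rfl
  have h2 : (∑ i, |a i|)^2 ≤ ((layer d n).card * 2 : ℕ) * ∑ i, a i ^ 2 := by
    have := sq_sum_le_card_mul_sum_sq (s := (Finset.univ : Finset ((layer d n) × Fin 2)))
      (f := fun i => |a i|)
    simp only [sq_abs] at this
    rw [Finset.card_univ, Fintype.card_prod, Fintype.card_coe, Fintype.card_fin] at this
    exact this
  have h0 : (0:ℝ) ≤ ∑ i, |a i| := Finset.sum_nonneg fun i _ => abs_nonneg _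
  have hs : (0:ℝ) ≤ ∑ i, a i ^ 2 := Finset.sum_nonneg fun i _ => sq_nonneg _
  refine h1.trans ?_
  apply Real.le_sqrt_of_sq_le h2 |>.trans
  rw [Real.sqrt_mul (by positivity)]
  gcongr
  push_cast
  rw [mul_comm, Real.sqrt_mul (by norm_num)]
  gcongr
  rw [Real.sqrt_le_left (by norm_num)]
  norm_num

theorem wpoly_cont {d n : ℕ} (a : (layer d n) × Fin 2 → ℝ) : Continuous (poly a) := by
  unfold poly
  refine continuous_finsetSum _ fun k _ => ?_
  refine continuous_const.mul (Complex.continuous_exp.comp (continuous_const.mul ?_))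
  refine Complex.continuous_ofReal.comp ?_
  refine continuous_finsetSum _ fun j _ => ?_
  exact continuous_const.mul (continuous_apply j)

/-- generator -/
noncomputable def wT (𝕜 : Type) [RCLike 𝕜] {d n : ℕ} :
    ((layer d n) × Fin 2 → ℝ) →ₗ[ℝ] ((Fin d → ℝ) → 𝕜) :=
  LinearMap.pi (fun x => (wio 𝕜) ∘ₗ (wPL x))

theorem wT_apply (𝕜 : Type) [RCLike 𝕜] {d n : ℕ} (a : (layer d n) × Fin 2 → ℝ) (x : Fin d → ℝ) :
    wT 𝕜 a x = wio 𝕜 (poly a x) := rfl

theorem wT_memLp (𝕜 : Type) [RCLike 𝕜] {d n : ℕ} (a : (layer d n) × Fin 2 → ℝ) :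
    MemLp (wT 𝕜 a) ⊤ (TP d) := by
  have hc : Continuous (wT 𝕜 a) := (wio_cont 𝕜).comp (wpoly_cont a)
  refine memLp_top_of_bound hc.aestronglyMeasurable
    (2 * (2 * Real.sqrt (layer d n).card * Real.sqrt (∑ i, a i ^ 2))) (Filter.Eventually.of_forall fun x => ?_)
  rw [wT_apply]
  exact (wio_norm 𝕜 _).trans (by gcongr; exact wpoly_bd a x)

theorem width_up2 (𝕜 : Type) [RCLike 𝕜] (d : ℕ) (hd : 1 ≤ d) (q : ℝ≥0∞) (hq : 2 ≤ q) (r : ℝ) (hr : 1/2 < r)
    (α : Fin d → ℝ) : ∃ C : ℝ, 0 < C ∧ ∀ m : ℕ, 2 ≤ m →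
      kolW2 m (ML 𝕜 d r q α) ≤ ENNReal.ofReal (C * Rk d r m) := by
  classical
  obtain ⟨C1, hC1, hsplit⟩ := wf_split d r hr α
  obtain ⟨C2, hC2, happ⟩ := layer_approx d
  obtain ⟨C3, hC3, hnum⟩ := num_up2 d hd r hr
  refine ⟨2 * (C1 * C2 + 2 * C1) * C3, by positivity, fun m hm => ?_⟩
  obtain ⟨n0, n1, M, hn01, hM1, hdim, hsum, hbd⟩ := hnum m hm
  have hG : ∀ n : ℕ, ∃ G : Fin (M n) → ((layer d n) × Fin 2 → ℝ), ∀ a : (layer d n) × Fin 2 → ℝ,
      ∑ i, a i ^ 2 ≤ 1 → ∃ β : Fin (M n) → ℝ, ∀ x, ‖poly (fun i => a i - ∑ j, β j * G j i) x‖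
        ≤ C2 * Real.sqrt (((n:ℝ)+1) * (layer d n).card / M n) := fun n => happ n (M n) (hM1 n)
  choose G hG using hG
  let S1 : Finset ((Fin d → ℝ) → 𝕜) := (Finset.range n0).biUnion
    (fun n => (Finset.univ : Finset ((layer d n) × Fin 2)).image (fun i => wT 𝕜 (Pi.single i 1)))
  let S2 : Finset ((Fin d → ℝ) → 𝕜) := (Finset.Ico n0 n1).biUnion
    (fun n => (Finset.univ : Finset (Fin (M n))).image (fun j => wT 𝕜 (G n j)))
  let U : Submodule 𝕜 ((Fin d → ℝ) → 𝕜) := Submodule.span 𝕜 (↑(S1 ∪ S2) : Set ((Fin d → ℝ) → 𝕜))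
  have hU1 : Module.Finite 𝕜 U := FiniteDimensional.span_finset 𝕜 (S1 ∪ S2)
  have hU2 : Module.finrank 𝕜 U ≤ m := by
    refine (finrank_span_finset_le_card (S1 ∪ S2)).trans ?_
    refine (Finset.card_union_le _ _).trans ?_
    refine le_trans (add_le_add ?_ ?_) hdim
    · refine Finset.card_biUnion_le.trans (Finset.sum_le_sum fun n _ => ?_)
      refine Finset.card_image_le.trans ?_
      rw [Finset.card_univ, Fintype.card_prod, Fintype.card_coe, Fintype.card_fin, mul_comm]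
    · refine Finset.card_biUnion_le.trans (Finset.sum_le_sum fun n _ => ?_)
      refine Finset.card_image_le.trans ?_
      rw [Finset.card_univ, Fintype.card_fin]
  have hU3 : ∀ u ∈ U, MemLp u ⊤ (TP d) := by
    intro u hu
    induction hu using Submodule.span_induction with
    | mem u hu =>
      rw [Finset.mem_coe, Finset.mem_union] at hu
      rcases hu with hu | hu
      · obtain ⟨n, _, hu⟩ := Finset.mem_biUnion.mp hu
        obtain ⟨i, _, rfl⟩ := Finset.mem_image.mp hu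
        exact wT_memLp 𝕜 _
      · obtain ⟨n, _, hu⟩ := Finset.mem_biUnion.mp hu
        obtain ⟨i, _, rfl⟩ := Finset.mem_image.mp hu
        exact wT_memLp 𝕜 _
    | zero => exact MemLp.zero
    | add u v _ _ h1 h2 => exact h1.add h2
    | smul c u _ h => exact h.const_smul c
  have hmem1 : ∀ n ∈ Finset.range n0, ∀ a : (layer d n) × Fin 2 → ℝ, wT 𝕜 a ∈ U := by
    intro n hn a
    have ha : a = ∑ i, a i • (Pi.single i (1:ℝ) : (layer d n) × Fin 2 → ℝ) := by
      funext i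
      simp [Finset.sum_apply, Pi.single_apply]
    rw [ha, map_sum]
    refine Submodule.sum_mem _ fun i _ => ?_
    rw [map_smul]
    refine Submodule.smul_of_tower_mem _ _ ?_
    apply Submodule.subset_span
    rw [Finset.mem_coe, Finset.mem_union]
    left
    exact Finset.mem_biUnion.mpr ⟨n, hn, Finset.mem_image.mpr ⟨i, Finset.mem_univ _, rfl⟩⟩
  have hmem2 : ∀ n ∈ Finset.Ico n0 n1, ∀ j, wT 𝕜 (G n j) ∈ U := by
    intro n hn j
    apply Submodule.subset_span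
    rw [Finset.mem_coe, Finset.mem_union]
    right
    exact Finset.mem_biUnion.mpr ⟨n, hn, Finset.mem_image.mpr ⟨j, Finset.mem_univ _, rfl⟩⟩
  unfold kolW2
  refine (iInf₂_le U ⟨hU1, hU2, hU3⟩).trans ?_
  refine iSup₂_le fun f hf => ?_
  have hq1 : (1:ℝ≥0∞) ≤ q := le_trans (by norm_num) hq
  have hWF := ML_memC 𝕜 q hq1 r (by linarith) α f hf
  obtain ⟨A, hA, hAs⟩ := hsplit q hq _ hWF
  -- the approximation in the middle layers
  have hmid : ∀ n : ℕ, ∃ β : Fin (M n) → ℝ, ∀ x, ‖poly (A n) x - ∑ j, (β j : ℂ) * poly (G n j) x‖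
      ≤ C1 * (2:ℝ)^(-(r * n)) * (C2 * Real.sqrt (((n:ℝ)+1) * (layer d n).card / M n)) := by
    intro n
    set c : ℝ := C1 * (2:ℝ)^(-(r * n)) with hc
    have hcpos : 0 < c := by positivity
    have h1 : ∑ i, (c⁻¹ * A n i) ^ 2 ≤ 1 := by
      have h2 : ∑ i, (c⁻¹ * A n i) ^ 2 = (c⁻¹)^2 * ∑ i, A n i ^ 2 := by
        rw [Finset.mul_sum]
        exact Finset.sum_congr rfl fun i _ => by ring
      rw [h2]
      calc (c⁻¹)^2 * ∑ i, A n i ^ 2 ≤ (c⁻¹)^2 * c^2 := by
            gcongr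
            exact hA n
        _ = 1 := by field_simp
    obtain ⟨β, hβ⟩ := hG n _ h1
    refine ⟨fun j => c * β j, fun x => ?_⟩
    have h3 : poly (A n) x - ∑ j, ((c * β j : ℝ) : ℂ) * poly (G n j) x
        = (c : ℂ) * poly (fun i => c⁻¹ * A n i - ∑ j, β j * G n j i) x := by
      have h4 : (fun i => c⁻¹ * A n i - ∑ j, β j * G n j i) = c⁻¹ • A n - ∑ j, β j • G n j := by
        funext i
        simp [Finset.sum_apply]
      rw [h4, ← wPL_apply, ← wPL_apply, map_sub, map_sum, map_smul, mul_sub, Finset.mul_sum,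
        Complex.real_smul]
      congr 1
      · rw [← mul_assoc, ← Complex.ofReal_mul, mul_inv_cancel₀ hcpos.ne', Complex.ofReal_one, one_mul]
      · refine Finset.sum_congr rfl fun j _ => ?_
        rw [map_smul, Complex.real_smul, wPL_apply]
        push_cast
        ring
    rw [h3, norm_mul, Complex.norm_real, Real.norm_of_nonneg hcpos.le]
    gcongr
    exact hβ x
  choose β hβ using hmid
  let u : (Fin d → ℝ) → 𝕜 := ∑ n ∈ Finset.range n0, wT 𝕜 (A n) +
    ∑ n ∈ Finset.Ico n0 n1, ∑ j, β n j • wT 𝕜 (G n j)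
  have huU : u ∈ U := by
    refine Submodule.add_mem _ (Submodule.sum_mem _ fun n hn => hmem1 n hn _) ?_
    refine Submodule.sum_mem _ fun n hn => Submodule.sum_mem _ fun j _ => ?_
    exact Submodule.smul_of_tower_mem _ _ (hmem2 n hn j)
  refine (iInf₂_le u huU).trans ?_
  rw [eLpNorm_exponent_top]
  refine eLpNormEssSup_le_of_ae_bound ?_
  filter_upwards [hAs] with x hx
  have hx1 := (hasSum_nat_add_iff' n1).mpr hx
  have htail : ‖toC (f x) - ∑ i ∈ Finset.range n1, poly (A i) x‖ ≤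
      2 * C1 * ∑' n : ℕ, (2:ℝ)^(-(r * ((n + n1 : ℕ) : ℝ))) * Real.sqrt (layer d (n + n1)).card := by
    have h5 : HasSum (fun n : ℕ => 2 * C1 * ((2:ℝ)^(-(r * ((n + n1 : ℕ) : ℝ))) *
        Real.sqrt (layer d (n + n1)).card)) (2 * C1 * ∑' n : ℕ, (2:ℝ)^(-(r * ((n + n1 : ℕ) : ℝ))) *
        Real.sqrt (layer d (n + n1)).card) := hsum.hasSum.mul_left _
    refine hx1.norm_le_of_bounded h5 fun n => ?_
    refine (wpoly_bd _ _).trans ?_
    have h6 : Real.sqrt (∑ i, A (n + n1) i ^ 2) ≤ C1 * (2:ℝ)^(-(r * ((n + n1 : ℕ) : ℝ))) :=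
      (Real.sqrt_le_sqrt (hA (n + n1))).trans (by rw [Real.sqrt_sq (by positivity)])
    calc 2 * Real.sqrt (layer d (n + n1)).card * Real.sqrt (∑ i, A (n + n1) i ^ 2)
        ≤ 2 * Real.sqrt (layer d (n + n1)).card * (C1 * (2:ℝ)^(-(r * ((n + n1 : ℕ) : ℝ)))) := by gcongr
      _ = _ := by ring
  have hsplit2 : ∑ i ∈ Finset.range n1, poly (A i) x = ∑ i ∈ Finset.range n0, poly (A i) x +
      ∑ i ∈ Finset.Ico n0 n1, poly (A i) x := by
    rw [Finset.sum_range_add_sum_Ico _ hn01]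
  have hmidsum : ‖∑ n ∈ Finset.Ico n0 n1, (poly (A n) x - ∑ j, (β n j : ℂ) * poly (G n j) x)‖ ≤
      C1 * C2 * ∑ n ∈ Finset.Ico n0 n1, (2:ℝ)^(-(r * n)) *
        Real.sqrt (((n:ℝ)+1) * (layer d n).card / M n) := by
    refine (norm_sum_le _ _).trans ?_
    rw [Finset.mul_sum]
    refine Finset.sum_le_sum fun n _ => ?_
    refine (hβ n x).trans (le_of_eq ?_)
    ring
  have hfu : f x - u x = wio 𝕜 ((toC (f x) - ∑ i ∈ Finset.range n1, poly (A i) x) +
      ∑ n ∈ Finset.Ico n0 n1, (poly (A n) x - ∑ j, (β n j : ℂ) * poly (G n j) x)) := by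
    have h7 : u x = wio 𝕜 (∑ n ∈ Finset.range n0, poly (A n) x +
        ∑ n ∈ Finset.Ico n0 n1, ∑ j, (β n j : ℂ) * poly (G n j) x) := by
      simp only [u, Pi.add_apply, Finset.sum_apply, Pi.smul_apply, wT_apply, map_add, map_sum]
      congr 1
      refine Finset.sum_congr rfl fun n _ => Finset.sum_congr rfl fun j _ => ?_
      rw [← Complex.real_smul, map_smul]
    rw [h7]
    conv_lhs => rw [← wio_toC 𝕜 (f x)]
    rw [← map_sub]
    congr 1
    rw [hsplit2, Finset.sum_sub_distrib]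
    ring
  rw [hfu]
  refine (wio_norm 𝕜 _).trans ?_
  have hpos1 : 0 ≤ ∑ n ∈ Finset.Ico n0 n1, (2:ℝ)^(-(r * n)) *
      Real.sqrt (((n:ℝ)+1) * (layer d n).card / M n) := Finset.sum_nonneg fun n _ => by positivity
  have hpos2 : 0 ≤ ∑' n : ℕ, (2:ℝ)^(-(r * ((n + n1 : ℕ) : ℝ))) * Real.sqrt (layer d (n + n1)).card :=
    tsum_nonneg fun n => by positivity
  have h8 := (norm_add_le (toC (f x) - ∑ i ∈ Finset.range n1, poly (A i) x)
    (∑ n ∈ Finset.Ico n0 n1, (poly (A n) x - ∑ j, (β n j : ℂ) * poly (G n j) x))).trans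
    (add_le_add htail hmidsum)
  have h9 : 2 * C1 * (∑' n : ℕ, (2:ℝ)^(-(r * ((n + n1 : ℕ) : ℝ))) * Real.sqrt (layer d (n + n1)).card) +
      C1 * C2 * (∑ n ∈ Finset.Ico n0 n1, (2:ℝ)^(-(r * n)) *
        Real.sqrt (((n:ℝ)+1) * (layer d n).card / M n)) ≤ (C1 * C2 + 2 * C1) * (C3 * Rk d r m) := by
    calc _ ≤ (C1 * C2 + 2 * C1) * ((∑ n ∈ Finset.Ico n0 n1, (2:ℝ)^(-(r * n)) *
          Real.sqrt (((n:ℝ)+1) * (layer d n).card / M n)) +
          ∑' n : ℕ, (2:ℝ)^(-(r * ((n + n1 : ℕ) : ℝ))) * Real.sqrt (layer d (n + n1)).card) := by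
          have hp1 : 0 ≤ C1 * C2 := by positivity
          have hp2 : 0 ≤ 2 * C1 := by positivity
          have hp3 := mul_nonneg hp2 hpos1
          have hp4 := mul_nonneg hp1 hpos2
          nlinarith
      _ ≤ _ := by gcongr
  calc 2 * ‖_‖ ≤ 2 * ((C1 * C2 + 2 * C1) * (C3 * Rk d r m)) := by
        gcongr
        exact h8.trans h9
    _ = 2 * (C1 * C2 + 2 * C1) * C3 * Rk d r m := by ring


end Sol_KX_width_up2

alias width_up2 := Sol_KX_width_up2.width_up2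

end HypVol
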