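import Pool.Agent.EntX.Defs
import Pool.Agent.HypVol.DefsW
import Pool.Agent.EntX.L_caseC_F
import Pool.Agent.EntX.L_entNum_lower_F
import Pool.Agent.KX.L_carl
import Pool.Agent.KX.L_ml_bdd
import Pool.Agent.KX.L_width_up2
open MeasureTheory Real ProbabilityTheory
open scoped ENNReal BigOperators

namespace HypVol
namespace Sol_KX_width_all

theorem ML_sub (𝕜 : Type) [RCLike 𝕜] {d : ℕ} (r : ℝ) (α : Fin d → ℝ) (q : ℝ≥0∞) :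
    ML 𝕜 d r ⊤ α ⊆ ML 𝕜 d r q α := by
  haveI := TP_prob d
  rintro f ⟨φ, hφ, hφ1, rfl⟩
  exact ⟨φ, hφ.mono_exponent le_top,
    (eLpNorm_le_eLpNorm_of_exponent_le le_top hφ.1).trans hφ1, rfl⟩

theorem kolW2_mono (𝕜 : Type) [RCLike 𝕜] {d : ℕ} (m : ℕ) (S T : Set ((Fin d → ℝ) → 𝕜)) (h : S ⊆ T) :
    kolW2 m S ≤ kolW2 m T := by
  unfold kolW2
  exact iInf₂_mono fun U hU => biSup_mono fun f hf => h hf

theorem width_all_lower (𝕜 : Type) [RCLike 𝕜] (d : ℕ) (hd : 3 ≤ d) (q : ℝ≥0∞) (r : ℝ) (hr : 1/2 < r)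
    (α : Fin d → ℝ) : ∃ c : ℝ, 0 < c ∧ ∀ m : ℕ, 2 ≤ m →
      ENNReal.ofReal (c * Rk d r m) ≤ kolW2 m (ML 𝕜 d r q α) := by
  have hr0 : 0 < r := by linarith
  obtain ⟨c0, hc0, h0⟩ := caseC_F d hd r hr α
  have hlow := entNum_lower_F 𝕜 d hd r hr0 α ⊤ ⊤ le_top le_top c0 hc0 h0
  obtain ⟨B, hB, hBd⟩ := ml_bdd 𝕜 d (by omega) ⊤ le_top r hr α
  have hup := width_up2 𝕜 d (by omega) ⊤ le_top r hr α
  obtain ⟨c, hc, h⟩ := carl 𝕜 d (by omega) r hr0 (ML 𝕜 d r ⊤ α) B hBd hlow hup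
  exact ⟨c, hc, fun m hm => (h m hm).trans (kolW2_mono 𝕜 m _ _ (ML_sub 𝕜 r α q))⟩

end Sol_KX_width_all

alias width_all_lower := Sol_KX_width_all.width_all_lower

end HypVol
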